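import Pool.Agent.X108.ZE.CT

/-!
# Zeros in sets of heights with additive structure
-/

set_option autoImplicit false

namespace Pool.Agent.X108.ZE

open Complex Metric MeasureTheory Set Filter Topology DH31
open scoped Pointwise
open Pool.Agent.X108.HB (DD ee R3 R3_nonneg ZZ ZZ_nonneg bil_sub WS Z3)

/-- there is a zero with real part at least `σ` and height in `[n, n+1]` -/
def HZ (σ : ℝ) (n : ℤ) : Prop :=
  ∃ ρ : ℂ, riemannZeta ρ = 0 ∧ σ ≤ ρ.re ∧ (n : ℝ) ≤ ρ.im ∧ ρ.im ≤ n + 1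

/-- **the counting principle** -/
theorem master {δ κ : ℝ} (hδ : 0 < δ) (hδ1 : δ ≤ 1 / 12) (hκ : 0 < κ) (hκ1 : κ ≤ 1) :
    ∃ G T0 : ℝ, 1 ≤ G ∧ 1 ≤ T0 ∧ ∀ T : ℝ, T0 ≤ T → ∀ σ : ℝ, 1 / 2 + 2 * δ ≤ σ → σ ≤ 1 →
    ∀ (ι : Type) (Ω : Finset ι) (h : ι → ℤ), (∀ x ∈ Ω, 3 ≤ h x ∧ (h x : ℝ) ≤ T ∧ HZ σ (h x)) →
    ∀ U : ℝ, 0 ≤ U → (∀ (N M0 : ℕ) (I : Finset ℕ) (a : ℕ → ℂ), 1 ≤ N → I ⊆ Finset.Icc 1 N →
      (N : ℝ) ≤ G * M0 → T ^ (1 / 2 : ℝ) ≤ M0 → (M0 : ℝ) ≤ 64 * T → (∀ n ∈ I, ‖a n‖ ≤ 1) →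
      (M0 : ℝ) ^ (-2 * (σ - 2 * δ)) * ∑ x ∈ Ω, ‖DD I a (-(h x : ℝ))‖ ^ 2 ≤ U) →
    (Ω.card : ℝ) ≤ G * T ^ (2 * κ) * U := by
  classical
  obtain ⟨c, hc, T1, hT1, h1⟩ := detection hδ hδ1 hκ hκ1
  obtain ⟨m0, C, T2, hC1, hT2, h2⟩ := colour hδ (by linarith) hκ hκ1 hc
  have h2m : (1 : ℝ) ≤ 2 ^ m0 := one_le_pow₀ (by norm_num)
  refine ⟨2 ^ m0 * C, max T1 T2, by nlinarith, hT1.trans (le_max_left _ _), ?_⟩
  intro T hT σ hσ1 hσ2 ι Ω h hΩ U hU hbd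
  have hTT1 : T1 ≤ T := (le_max_left _ _).trans hT
  have hTT2 : T2 ≤ T := (le_max_right _ _).trans hT
  have hT1' : 1 ≤ T := hT1.trans hTT1
  have hTpos : 0 < T := by linarith
  obtain ⟨J, B, e, hJ, hprop, hdet⟩ := h1 T hTT1 σ (by linarith) hσ2
  have hch : ∀ x : ι, x ∈ Ω → ∃ p : (ℕ × ℕ ⊕ ℕ) × ℂ, p.1 ∈ J ∧ 0 ≤ p.2.re ∧ p.2.re ≤ 3 ∧
      |p.2.im - (h x : ℝ)| ≤ 3 ∧ ((Real.log T) ^ 3)⁻¹ ≤ ‖LSeries (fun n => B p.1 n) p.2‖ := by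
    intro x hx
    obtain ⟨hx1, hx2, ρ, hρ, hre, him1, him2⟩ := hΩ x hx
    have hx3 : (3 : ℝ) ≤ (h x : ℝ) := by exact_mod_cast hx1
    have hre2 : ρ.re ≤ 1 := by
      by_contra hcon
      push Not at hcon
      exact riemannZeta_ne_zero_of_one_le_re hcon.le hρ
    obtain ⟨i, hi, s, g1, g2, g3, g4⟩ := hdet ρ hρ (by linarith) (by linarith) hre hre2
    refine ⟨(i, s), hi, g1, g2, ?_, g4⟩
    rw [abs_le] at g3 ⊢
    constructor <;> linarith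
  choose! p hp using hch
  have hsplit : (Ω.card : ℝ) = ∑ i ∈ J, ((Ω.filter (fun x => (p x).1 = i)).card : ℝ) := by
    have := Finset.card_eq_sum_card_fiberwise (s := Ω) (t := J) (f := fun x => (p x).1)
      (fun x hx => (hp x hx).1)
    exact_mod_cast this
  have hone : ∀ i ∈ J, ((Ω.filter (fun x => (p x).1 = i)).card : ℝ) ≤ C * T ^ κ * U := by
    intro i hi
    obtain ⟨q1, q2, q3, q4⟩ := hprop i hi
    obtain ⟨M0, N, I, hN, hI, hNM, hM1, hM2, hcol⟩ := h2 T hTT2 σ hσ1 hσ2 (B i) (e i) q1 q2 q3 q4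
    have hM0 : (0 : ℝ) < M0 := lt_of_lt_of_le (Real.rpow_pos_of_pos hTpos _) hM1
    have hMp : 0 < (M0 : ℝ) ^ (-2 * (σ - 2 * δ)) := Real.rpow_pos_of_pos hM0 _
    have hMp2 : (M0 : ℝ) ^ (-2 * (σ - 2 * δ)) * (M0 : ℝ) ^ (2 * (σ - 2 * δ)) = 1 := by
      rw [← Real.rpow_add hM0]; ring_nf; exact Real.rpow_zero _
    have hres := hcol ι (Ω.filter (fun x => (p x).1 = i)) (fun x => (h x : ℝ)) (fun x => (p x).2)
      (by
        intro x hx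
        rw [Finset.mem_filter] at hx
        obtain ⟨-, g1, g2, g3, g4⟩ := hp x hx.1
        rw [hx.2] at g4
        exact ⟨g1, g2, g3, g4⟩)
      (U * (M0 : ℝ) ^ (2 * (σ - 2 * δ))) (by positivity)
      (by
        intro a ha
        have g1 := hbd N M0 I a hN hI (hNM.trans (by
          have : (2 : ℝ) ^ m0 ≤ 2 ^ m0 * C := by nlinarith
          gcongr)) hM1 hM2 ha
        have g2 : ∑ x ∈ Ω.filter (fun x => (p x).1 = i), ‖DD I a (-(h x : ℝ))‖ ^ 2 ≤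
            ∑ x ∈ Ω, ‖DD I a (-(h x : ℝ))‖ ^ 2 :=
          Finset.sum_le_sum_of_subset_of_nonneg (Finset.filter_subset _ _)
            fun _ _ _ => by positivity
        refine g2.trans ?_
        have g3 : ∑ x ∈ Ω, ‖DD I a (-(h x : ℝ))‖ ^ 2 =
            ((M0 : ℝ) ^ (-2 * (σ - 2 * δ)) * ∑ x ∈ Ω, ‖DD I a (-(h x : ℝ))‖ ^ 2) *
            (M0 : ℝ) ^ (2 * (σ - 2 * δ)) := by
          rw [mul_right_comm, hMp2, one_mul]
        rw [g3]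
        gcongr)
    calc ((Ω.filter (fun x => (p x).1 = i)).card : ℝ) ≤
          C * T ^ κ * (M0 : ℝ) ^ (-2 * (σ - 2 * δ)) * (U * (M0 : ℝ) ^ (2 * (σ - 2 * δ))) := hres
      _ = C * T ^ κ * U * ((M0 : ℝ) ^ (-2 * (σ - 2 * δ)) * (M0 : ℝ) ^ (2 * (σ - 2 * δ))) := by ring
      _ = _ := by rw [hMp2, mul_one]
  rw [hsplit]
  calc ∑ i ∈ J, ((Ω.filter (fun x => (p x).1 = i)).card : ℝ) ≤ ∑ i ∈ J, C * T ^ κ * U :=
        Finset.sum_le_sum hone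
    _ = J.card * (C * T ^ κ * U) := by rw [Finset.sum_const, nsmul_eq_mul]
    _ ≤ T ^ κ * (C * T ^ κ * U) := by gcongr
    _ = 1 * C * (T ^ κ * T ^ κ) * U := by ring
    _ ≤ 2 ^ m0 * C * (T ^ κ * T ^ κ) * U := by gcongr
    _ = _ := by rw [← Real.rpow_add hTpos]; ring_nf

/-- the bound -/
noncomputable def Rz (s T σ : ℝ) : ℝ :=
  s ^ 2 * T ^ (1 / 2 - σ) + s * T ^ (2 * (1 - σ)) + s ^ (5 / 4 : ℝ) * T ^ (1 - σ)

lemma Rz_nonneg {s T : ℝ} (σ : ℝ) (hs : 0 ≤ s) (hT : 0 ≤ T) : 0 ≤ Rz s T σ := by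
  unfold Rz; positivity

lemma rz {δ G : ℝ} (hδ : 0 < δ) (hG : 1 ≤ G) {T σ s N M0 : ℝ} (hT : 1 ≤ T)
    (hσ1 : 1 / 2 + 2 * δ ≤ σ) (hσ2 : σ ≤ 1) (hs : 0 ≤ s) (hN0 : 0 ≤ N) (hN : N ≤ G * M0)
    (h1 : T ^ (1 / 2 : ℝ) ≤ M0) (h2 : M0 ≤ 64 * T) :
    M0 ^ (-2 * (σ - 2 * δ)) * R3 s (64 * G * T) N ≤ 64 * (64 * G) ^ 2 * T ^ (4 * δ) * Rz s T σ := by
  have hT0 : 0 < T := by linarith
  have hM0 : 0 < M0 := lt_of_lt_of_le (Real.rpow_pos_of_pos hT0 _) h1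
  obtain ⟨H, hH⟩ : ∃ H : ℝ, H = 64 * G := ⟨_, rfl⟩
  have hH1 : 1 ≤ H := by rw [hH]; linarith
  have hNH : N ≤ H * M0 := hN.trans (by rw [hH]; gcongr; linarith)
  rw [← hH]
  have e1 : R3 s (H * T) N ≤ H ^ 2 * R3 s T M0 := by
    unfold R3
    have g1 : s ^ 2 * N ≤ H ^ 2 * (s ^ 2 * M0) := by
      calc s ^ 2 * N ≤ s ^ 2 * (H * M0) := by gcongr
        _ = H * (s ^ 2 * M0) := by ring
        _ ≤ H ^ 2 * (s ^ 2 * M0) := by
          have : H ≤ H ^ 2 := by nlinarith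
          gcongr
    have g2 : s * N ^ 2 ≤ H ^ 2 * (s * M0 ^ 2) := by
      calc s * N ^ 2 ≤ s * (H * M0) ^ 2 := by gcongr
        _ = _ := by ring
    have g3 : s ^ (5 / 4 : ℝ) * (H * T) ^ (1 / 2 : ℝ) * N ≤
        H ^ 2 * (s ^ (5 / 4 : ℝ) * T ^ (1 / 2 : ℝ) * M0) := by
      rw [Real.mul_rpow (by linarith) hT0.le]
      have g4 : H ^ (1 / 2 : ℝ) ≤ H := by
        calc H ^ (1 / 2 : ℝ) ≤ H ^ (1 : ℝ) := Real.rpow_le_rpow_of_exponent_le hH1 (by norm_num)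
          _ = H := Real.rpow_one H
      calc s ^ (5 / 4 : ℝ) * (H ^ (1 / 2 : ℝ) * T ^ (1 / 2 : ℝ)) * N ≤
            s ^ (5 / 4 : ℝ) * (H * T ^ (1 / 2 : ℝ)) * (H * M0) := by gcongr
        _ = _ := by ring
    linarith
  have e2 : M0 ^ (-2 * (σ - 2 * δ)) * R3 s T M0 ≤ 64 * T ^ (4 * δ) * Rz s T σ := by
    have hTδ : 1 ≤ T ^ (4 * δ) := Real.one_le_rpow hT (by positivity)
    have k1 : M0 ^ (-2 * (σ - 2 * δ)) * M0 ≤ T ^ (4 * δ) * T ^ (1 / 2 - σ) := by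
      have : M0 ^ (-2 * (σ - 2 * δ)) * M0 = M0 ^ (1 - 2 * (σ - 2 * δ)) := by
        nth_rewrite 2 [← Real.rpow_one M0]
        rw [← Real.rpow_add hM0]; ring_nf
      rw [this]
      calc M0 ^ (1 - 2 * (σ - 2 * δ)) ≤ (T ^ (1 / 2 : ℝ)) ^ (1 - 2 * (σ - 2 * δ)) :=
            Real.rpow_le_rpow_of_nonpos (by positivity) h1 (by linarith)
        _ = T ^ (2 * δ + (1 / 2 - σ)) := by rw [← Real.rpow_mul hT0.le]; ring_nf
        _ ≤ T ^ (4 * δ + (1 / 2 - σ)) := Real.rpow_le_rpow_of_exponent_le hT (by linarith)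
        _ = _ := Real.rpow_add hT0 _ _
    have k2 : M0 ^ (-2 * (σ - 2 * δ)) * M0 ^ 2 ≤ 64 * T ^ (4 * δ) * T ^ (2 * (1 - σ)) := by
      have : M0 ^ (-2 * (σ - 2 * δ)) * M0 ^ 2 = M0 ^ (2 * (1 - σ) + 4 * δ) := by
        rw [← Real.rpow_two, ← Real.rpow_add hM0]; ring_nf
      rw [this]
      have h3 : 0 ≤ 2 * (1 - σ) + 4 * δ := by linarith
      have h4 : 2 * (1 - σ) + 4 * δ ≤ 1 := by linarith
      calc M0 ^ (2 * (1 - σ) + 4 * δ) ≤ (64 * T) ^ (2 * (1 - σ) + 4 * δ) :=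
            Real.rpow_le_rpow hM0.le h2 h3
        _ = (64 : ℝ) ^ (2 * (1 - σ) + 4 * δ) * T ^ (2 * (1 - σ) + 4 * δ) :=
            Real.mul_rpow (by norm_num) hT0.le
        _ ≤ (64 : ℝ) ^ (1 : ℝ) * T ^ (2 * (1 - σ) + 4 * δ) := by
            gcongr
            norm_num
        _ = _ := by rw [Real.rpow_one, Real.rpow_add hT0]; ring
    have k3 : T ^ (1 / 2 : ℝ) * T ^ (1 / 2 - σ) = T ^ (1 - σ) := by
      rw [← Real.rpow_add hT0]; ring_nf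
    have hx1 : 0 ≤ T ^ (1 / 2 - σ) := by positivity
    unfold R3 Rz
    calc M0 ^ (-2 * (σ - 2 * δ)) * (s ^ 2 * M0 + s * M0 ^ 2 + s ^ (5 / 4 : ℝ) * T ^ (1 / 2 : ℝ) * M0)
        = s ^ 2 * (M0 ^ (-2 * (σ - 2 * δ)) * M0) + s * (M0 ^ (-2 * (σ - 2 * δ)) * M0 ^ 2) +
          s ^ (5 / 4 : ℝ) * T ^ (1 / 2 : ℝ) * (M0 ^ (-2 * (σ - 2 * δ)) * M0) := by ring
      _ ≤ s ^ 2 * (T ^ (4 * δ) * T ^ (1 / 2 - σ)) + s * (64 * T ^ (4 * δ) * T ^ (2 * (1 - σ))) +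
          s ^ (5 / 4 : ℝ) * T ^ (1 / 2 : ℝ) * (T ^ (4 * δ) * T ^ (1 / 2 - σ)) := by gcongr
      _ = T ^ (4 * δ) * (s ^ 2 * T ^ (1 / 2 - σ)) + 64 * T ^ (4 * δ) * (s * T ^ (2 * (1 - σ))) +
          T ^ (4 * δ) * (s ^ (5 / 4 : ℝ) * (T ^ (1 / 2 : ℝ) * T ^ (1 / 2 - σ))) := by ring
      _ ≤ 64 * T ^ (4 * δ) * (s ^ 2 * T ^ (1 / 2 - σ)) + 64 * T ^ (4 * δ) * (s * T ^ (2 * (1 - σ))) +
          64 * T ^ (4 * δ) * (s ^ (5 / 4 : ℝ) * T ^ (1 - σ)) := by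
          rw [k3]
          have j1 : 0 ≤ T ^ (4 * δ) * (s ^ 2 * T ^ (1 / 2 - σ)) := by positivity
          have j2 : 0 ≤ T ^ (4 * δ) * (s ^ (5 / 4 : ℝ) * T ^ (1 - σ)) := by positivity
          nlinarith
      _ = _ := by ring
  calc M0 ^ (-2 * (σ - 2 * δ)) * R3 s (H * T) N ≤ M0 ^ (-2 * (σ - 2 * δ)) * (H ^ 2 * R3 s T M0) := by
        gcongr
    _ = H ^ 2 * (M0 ^ (-2 * (σ - 2 * δ)) * R3 s T M0) := by ring
    _ ≤ H ^ 2 * (64 * T ^ (4 * δ) * Rz s T σ) := by gcongr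
    _ = _ := by ring

/-- the integers as real numbers -/
noncomputable def rl (W : Finset ℤ) : Finset ℝ := W.image (fun n : ℤ => (n : ℝ))

lemma rl_card (W : Finset ℤ) : (rl W).card = W.card :=
  Finset.card_image_of_injective _ Int.cast_injective

lemma rl_WS {W : Finset ℤ} {T : ℝ} (h : ∀ n ∈ W, 0 ≤ n ∧ (n : ℝ) ≤ T) : WS (rl W) 0 T := by
  constructor
  · intro t ht u hu hne
    rw [rl, Finset.mem_image] at ht hu
    obtain ⟨m, hm, rfl⟩ := ht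
    obtain ⟨n, hn, rfl⟩ := hu
    have : m ≠ n := by rintro rfl; exact hne rfl
    have h1 : 1 ≤ |m - n| := Int.one_le_abs (sub_ne_zero.2 this)
    have h2 : ((1 : ℤ) : ℝ) ≤ ((|m - n| : ℤ) : ℝ) := by exact_mod_cast h1
    push_cast at h2
    exact h2
  · intro t ht
    rw [rl, Finset.mem_image] at ht
    obtain ⟨m, hm, rfl⟩ := ht
    obtain ⟨h1, h2⟩ := h m hm
    constructor
    · exact_mod_cast h1
    · linarith

lemma sum_rl (W : Finset ℤ) (f : ℝ → ℝ) : ∑ t ∈ rl W, f t = ∑ n ∈ W, f n := by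
  unfold rl
  exact Finset.sum_image fun _ _ _ _ h => Int.cast_injective h

/-- **the additive energy of the zeros** -/
theorem energy_zeros {ε : ℝ} (hε : 0 < ε) : ∃ C : ℝ, 1 ≤ C ∧ ∀ T : ℝ, 1 ≤ T → ∀ σ : ℝ, 1 / 2 ≤ σ →
    σ ≤ 1 → ∀ W : Finset ℤ, (∀ n ∈ W, 0 ≤ n ∧ (n : ℝ) ≤ T ∧ HZ σ n) →
    ((W.addEnergy W : ℕ) : ℝ) ≤ C * T ^ ε * (W.card * Rz W.card T σ) := by
  classical
  obtain ⟨δ, hδ'⟩ : ∃ δ : ℝ, δ = min (ε / 8) (1 / 12) := ⟨_, rfl⟩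
  have hδ : 0 < δ := by rw [hδ']; exact lt_min (by positivity) (by norm_num)
  have hδ1 : δ ≤ 1 / 12 := by rw [hδ']; exact min_le_right _ _
  have hδ2 : δ ≤ ε / 8 := by rw [hδ']; exact min_le_left _ _
  obtain ⟨κ, hκ'⟩ : ∃ κ : ℝ, κ = min (ε / 8) 1 := ⟨_, rfl⟩
  have hκ : 0 < κ := by rw [hκ']; exact lt_min (by positivity) one_pos
  have hκ1 : κ ≤ 1 := by rw [hκ']; exact min_le_right _ _
  have hκ2 : κ ≤ ε / 8 := by rw [hκ']; exact min_le_left _ _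
  obtain ⟨G, T0, hG, hT0, hmas⟩ := master hδ hδ1 hκ hκ1
  obtain ⟨C2, hC2, hZ3⟩ := Z3 hκ
  obtain ⟨D, hD⟩ : ∃ D : ℝ, D = C2 * (64 * G) ^ κ * (64 * (64 * G) ^ 2) := ⟨_, rfl⟩
  have h64G : (1 : ℝ) ≤ 64 * G := by linarith
  have hD1 : 1 ≤ D := by
    rw [hD]
    have g1 : 1 ≤ (64 * G) ^ κ := Real.one_le_rpow h64G hκ.le
    have g2 : 1 ≤ 64 * (64 * G) ^ 2 := by nlinarith
    nlinarith [mul_nonneg (by linarith : (0:ℝ) ≤ C2 - 1) (by linarith : (0:ℝ) ≤ (64 * G) ^ κ - 1)]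
  refine ⟨3 + G * D + T0, by nlinarith, ?_⟩
  intro T hT σ hσ1 hσ2 W hW
  have hTpos : 0 < T := by linarith
  obtain ⟨s, hs⟩ : ∃ s : ℝ, s = (W.card : ℝ) := ⟨_, rfl⟩
  have hs0 : 0 ≤ s := by rw [hs]; exact Nat.cast_nonneg _
  rw [← hs]
  have hTε : 1 ≤ T ^ ε := Real.one_le_rpow hT hε.le
  have hRz := Rz_nonneg σ hs0 hTpos.le
  have hGD : 0 ≤ G * D := by positivity
  have htriv : ((W.addEnergy W : ℕ) : ℝ) ≤ s ^ 3 := by
    have h1 : W.addEnergy W ≤ W.card ^ 3 := by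
      unfold Finset.addEnergy
      have : (((W ×ˢ W) ×ˢ W ×ˢ W).filter
          (fun x : (ℤ × ℤ) × ℤ × ℤ => x.1.1 + x.2.1 = x.1.2 + x.2.2)).card ≤ (W ×ˢ W ×ˢ W).card := by
        refine Finset.card_le_card_of_injOn (fun x => (x.1.1, x.1.2, x.2.1)) ?_ ?_
        · intro x hx
          rw [Finset.mem_coe, Finset.mem_filter, Finset.mem_product, Finset.mem_product,
            Finset.mem_product] at hx
          rw [Finset.mem_coe, Finset.mem_product, Finset.mem_product]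
          exact ⟨hx.1.1.1, hx.1.1.2, hx.1.2.1⟩
        · intro x hx y hy hxy
          rw [Finset.mem_coe, Finset.mem_filter] at hx hy
          simp only [Prod.mk.injEq] at hxy
          obtain ⟨k1, k2, k3⟩ := hxy
          have q1 := hx.2
          have q2 := hy.2
          refine Prod.ext (Prod.ext k1 k2) (Prod.ext k3 ?_)
          omega
      refine this.trans (le_of_eq ?_)
      rw [Finset.card_product, Finset.card_product]; ring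
    rw [hs]
    exact_mod_cast h1
  -- small cases
  have hR1 : s ^ 2 * T ^ (1 / 2 - σ) ≤ Rz s T σ := by
    unfold Rz
    have g1 : 0 ≤ s * T ^ (2 * (1 - σ)) := by positivity
    have g2 : 0 ≤ s ^ (5 / 4 : ℝ) * T ^ (1 - σ) := by positivity
    linarith
  have hR2 : s * T ^ (2 * (1 - σ)) ≤ Rz s T σ := by
    unfold Rz
    have g1 : 0 ≤ s ^ 2 * T ^ (1 / 2 - σ) := by positivity
    have g2 : 0 ≤ s ^ (5 / 4 : ℝ) * T ^ (1 - σ) := by positivity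
    linarith
  rcases lt_or_ge T T0 with hTT | hTT
  · have g1 : 1 ≤ T0 * T ^ (1 / 2 - σ) := by
      have : T ^ (-(1 : ℝ)) ≤ T ^ (1 / 2 - σ) := Real.rpow_le_rpow_of_exponent_le hT (by linarith)
      rw [Real.rpow_neg_one] at this
      calc (1 : ℝ) = T * T⁻¹ := (mul_inv_cancel₀ hTpos.ne').symm
        _ ≤ T0 * T ^ (1 / 2 - σ) := by gcongr
    calc ((W.addEnergy W : ℕ) : ℝ) ≤ s ^ 3 * 1 := by linarith
      _ ≤ s ^ 3 * (T0 * T ^ (1 / 2 - σ)) := by gcongr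
      _ = T0 * 1 * (s * (s ^ 2 * T ^ (1 / 2 - σ))) := by ring
      _ ≤ (3 + G * D + T0) * T ^ ε * (s * Rz s T σ) := by
        gcongr
        linarith
  rcases lt_or_ge σ (1 / 2 + 2 * δ) with hσ3 | hσ3
  · have g1 : 1 ≤ T ^ ε * T ^ (1 / 2 - σ) := by
      rw [← Real.rpow_add hTpos]
      exact Real.one_le_rpow hT (by linarith)
    calc ((W.addEnergy W : ℕ) : ℝ) ≤ s ^ 3 * 1 := by linarith
      _ ≤ s ^ 3 * (T ^ ε * T ^ (1 / 2 - σ)) := by gcongr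
      _ = 1 * T ^ ε * (s * (s ^ 2 * T ^ (1 / 2 - σ))) := by ring
      _ ≤ (3 + G * D + T0) * T ^ ε * (s * Rz s T σ) := by
        gcongr
        linarith
  -- the main case
  obtain ⟨Q, hQ⟩ : ∃ Q : Finset ((ℤ × ℤ) × ℤ × ℤ), Q = ((W ×ˢ W) ×ˢ W ×ˢ W).filter
      (fun x => x.1.1 + x.2.1 = x.1.2 + x.2.2) := ⟨_, rfl⟩
  have hE : W.addEnergy W = Q.card := by rw [hQ]; rfl
  have hmem : ∀ p ∈ Q, p.1.1 ∈ W ∧ p.1.2 ∈ W ∧ p.2.1 ∈ W ∧ p.2.2 ∈ W ∧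
      p.1.1 + p.2.1 = p.1.2 + p.2.2 := by
    intro p hp
    rw [hQ, Finset.mem_filter, Finset.mem_product, Finset.mem_product, Finset.mem_product] at hp
    exact ⟨hp.1.1.1, hp.1.1.2, hp.1.2.1, hp.1.2.2, hp.2⟩
  have hinj : Set.InjOn (fun p : (ℤ × ℤ) × ℤ × ℤ => (p.1.1, p.1.2, p.2.1)) (Q : Set _) := by
    intro p hp q hq hpq
    obtain ⟨-, -, -, -, h5⟩ := hmem p hp
    obtain ⟨-, -, -, -, h6⟩ := hmem q hq
    simp only [Prod.mk.injEq] at hpq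
    obtain ⟨k1, k2, k3⟩ := hpq
    refine Prod.ext (Prod.ext k1 k2) (Prod.ext k3 ?_)
    omega
  -- the quadruples with a small member
  have hsmall : ((Q.filter (fun p => ¬ 3 ≤ p.2.2)).card : ℝ) ≤ 3 * s ^ 2 := by
    have h1 : (Q.filter (fun p => ¬ 3 ≤ p.2.2)).card ≤ (W ×ˢ W ×ˢ Finset.Icc (0 : ℤ) 2).card := by
      refine Finset.card_le_card_of_injOn (fun x => (x.1.1, x.1.2, x.2.2)) ?_ ?_
      · intro x hx
        rw [Finset.mem_coe, Finset.mem_filter] at hx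
        obtain ⟨m1, m2, m3, m4, m5⟩ := hmem x hx.1
        have := (hW _ m4).1
        rw [Finset.mem_coe, Finset.mem_product, Finset.mem_product, Finset.mem_Icc]
        exact ⟨m1, m2, by simp only; omega, by simp only; omega⟩
      · intro x hx y hy hxy
        rw [Finset.mem_coe, Finset.mem_filter] at hx hy
        obtain ⟨-, -, -, -, h5⟩ := hmem x hx.1
        obtain ⟨-, -, -, -, h6⟩ := hmem y hy.1
        simp only [Prod.mk.injEq] at hxy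
        obtain ⟨k1, k2, k3⟩ := hxy
        refine Prod.ext (Prod.ext k1 k2) (Prod.ext ?_ k3)
        omega
    have h2 : (W ×ˢ W ×ˢ Finset.Icc (0 : ℤ) 2).card = 3 * W.card ^ 2 := by
      rw [Finset.card_product, Finset.card_product, Int.card_Icc]
      simp
      ring
    rw [h2] at h1
    rw [hs]
    exact_mod_cast h1
  -- the other quadruples
  have hT'1 : 1 ≤ 64 * G * T := by nlinarith
  have hWS : WS (rl W) 0 (64 * G * T) := by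
    apply rl_WS
    intro n hn
    obtain ⟨h1, h2, -⟩ := hW n hn
    exact ⟨h1, h2.trans (by nlinarith)⟩
  have hbig := hmas T hTT σ hσ3 hσ2 _ (Q.filter (fun p => 3 ≤ p.2.2)) (fun p => p.2.2)
    (by
      intro x hx
      rw [Finset.mem_filter] at hx
      obtain ⟨-, -, -, m4, -⟩ := hmem x hx.1
      exact ⟨hx.2, (hW _ m4).2⟩)
    (D * (T ^ κ * T ^ (4 * δ)) * (s * Rz s T σ)) (by positivity)
    (by
      intro N M0 I a hN hI hNG hM1 hM2 ha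
      have hM0 : (0 : ℝ) < M0 := lt_of_lt_of_le (Real.rpow_pos_of_pos hTpos _) hM1
      have hI1 : ∀ n ∈ I, 1 ≤ n := fun n hn => (Finset.mem_Icc.1 (hI hn)).1
      have hN2T : (N : ℝ) ≤ 2 * (64 * G * T) := by
        calc (N : ℝ) ≤ G * M0 := hNG
          _ ≤ G * (64 * T) := by gcongr
          _ ≤ _ := by nlinarith
      have hzz := hZ3 (64 * G * T) hT'1 (rl W) 0 hWS N hN hN2T I hI
      rw [rl_card, ← hs] at hzz
      have k1 : ∑ x ∈ Q.filter (fun p => 3 ≤ p.2.2), ‖DD I a (-((x.2.2 : ℤ) : ℝ))‖ ^ 2 ≤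
          s * ZZ I (rl W) := by
        have j1 : ∑ x ∈ Q.filter (fun p => 3 ≤ p.2.2), ‖DD I a (-((x.2.2 : ℤ) : ℝ))‖ ^ 2 ≤
            ∑ x ∈ Q, ‖DD I a (-((x.2.2 : ℤ) : ℝ))‖ ^ 2 :=
          Finset.sum_le_sum_of_subset_of_nonneg (Finset.filter_subset _ _)
            fun _ _ _ => by positivity
        have j2 : ∑ x ∈ Q, ‖DD I a (-((x.2.2 : ℤ) : ℝ))‖ ^ 2 =
            ∑ q ∈ Q.image (fun p : (ℤ × ℤ) × ℤ × ℤ => (p.1.1, p.1.2, p.2.1)),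
              ‖DD I a (-(q.1 : ℝ) + (q.2.1 : ℝ) - (q.2.2 : ℝ))‖ ^ 2 := by
          rw [Finset.sum_image hinj]
          refine Finset.sum_congr rfl fun x hx => ?_
          obtain ⟨-, -, -, -, h5⟩ := hmem x hx
          have h5' : (x.1.1 : ℝ) + (x.2.1 : ℝ) = (x.1.2 : ℝ) + (x.2.2 : ℝ) := by exact_mod_cast h5
          congr 3
          linarith
        have j3 : ∑ q ∈ Q.image (fun p : (ℤ × ℤ) × ℤ × ℤ => (p.1.1, p.1.2, p.2.1)),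
              ‖DD I a (-(q.1 : ℝ) + (q.2.1 : ℝ) - (q.2.2 : ℝ))‖ ^ 2 ≤
            ∑ q ∈ W ×ˢ W ×ˢ W, ‖DD I a (-(q.1 : ℝ) + (q.2.1 : ℝ) - (q.2.2 : ℝ))‖ ^ 2 := by
          refine Finset.sum_le_sum_of_subset_of_nonneg ?_ fun _ _ _ => by positivity
          intro q hq
          rw [Finset.mem_image] at hq
          obtain ⟨p, hp, rfl⟩ := hq
          obtain ⟨h1, h2, h3, -, -⟩ := hmem p hp
          rw [Finset.mem_product, Finset.mem_product]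
          exact ⟨h1, h2, h3⟩
        have j4 : ∑ q ∈ W ×ˢ W ×ˢ W, ‖DD I a (-(q.1 : ℝ) + (q.2.1 : ℝ) - (q.2.2 : ℝ))‖ ^ 2 =
            ∑ z ∈ W, ∑ x ∈ rl W, ∑ y ∈ rl W, ‖DD I a (-(z : ℝ) + x - y)‖ ^ 2 := by
          rw [Finset.sum_product]
          refine Finset.sum_congr rfl fun z _ => ?_
          rw [Finset.sum_product, sum_rl]
          refine Finset.sum_congr rfl fun x _ => ?_
          rw [sum_rl]
        have j5 : ∑ z ∈ W, ∑ x ∈ rl W, ∑ y ∈ rl W, ‖DD I a (-(z : ℝ) + x - y)‖ ^ 2 ≤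
            ∑ z ∈ W, ZZ I (rl W) := by
          refine Finset.sum_le_sum fun z _ => ?_
          have := bil_sub hI1 a ha (rl W) (rl W) (-(z : ℝ))
          rwa [Real.mul_self_sqrt (ZZ_nonneg _ _)] at this
        rw [Finset.sum_const, nsmul_eq_mul, ← hs] at j5
        linarith
      have k2 := rz hδ hG hT hσ3 hσ2 hs0 (Nat.cast_nonneg N) hNG hM1 hM2
      have hMp : 0 < (M0 : ℝ) ^ (-2 * (σ - 2 * δ)) := Real.rpow_pos_of_pos hM0 _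
      have k3 : (64 * G * T) ^ κ = (64 * G) ^ κ * T ^ κ := Real.mul_rpow (by linarith) hTpos.le
      calc (M0 : ℝ) ^ (-2 * (σ - 2 * δ)) *
            ∑ x ∈ Q.filter (fun p => 3 ≤ p.2.2), ‖DD I a (-((x.2.2 : ℤ) : ℝ))‖ ^ 2 ≤
            (M0 : ℝ) ^ (-2 * (σ - 2 * δ)) * (s * (C2 * (64 * G * T) ^ κ * R3 s (64 * G * T) N)) := by
              gcongr
              exact k1.trans (by gcongr)
        _ = s * (C2 * ((64 * G) ^ κ * T ^ κ)) *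
              ((M0 : ℝ) ^ (-2 * (σ - 2 * δ)) * R3 s (64 * G * T) N) := by rw [k3]; ring
        _ ≤ s * (C2 * ((64 * G) ^ κ * T ^ κ)) * (64 * (64 * G) ^ 2 * T ^ (4 * δ) * Rz s T σ) := by
              gcongr
        _ = _ := by rw [hD]; ring)
  have hcard : (Q.card : ℝ) = (Q.filter (fun p => 3 ≤ p.2.2)).card +
      (Q.filter (fun p => ¬ 3 ≤ p.2.2)).card := by
    exact_mod_cast (Finset.card_filter_add_card_filter_not (s := Q) (fun p => 3 ≤ p.2.2)).symm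
  rw [hE, hcard]
  have hexp : T ^ (2 * κ) * (T ^ κ * T ^ (4 * δ)) ≤ T ^ ε := by
    rw [← Real.rpow_add hTpos, ← Real.rpow_add hTpos]
    exact Real.rpow_le_rpow_of_exponent_le hT (by linarith)
  have f1 : ((Q.filter (fun p => 3 ≤ p.2.2)).card : ℝ) ≤ G * D * T ^ ε * (s * Rz s T σ) := by
    refine hbig.trans ?_
    calc G * T ^ (2 * κ) * (D * (T ^ κ * T ^ (4 * δ)) * (s * Rz s T σ)) =
          G * D * (T ^ (2 * κ) * (T ^ κ * T ^ (4 * δ))) * (s * Rz s T σ) := by ring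
      _ ≤ G * D * T ^ ε * (s * Rz s T σ) := by gcongr
  have f2 : 3 * s ^ 2 ≤ 3 * T ^ ε * (s * Rz s T σ) := by
    have g1 : 1 ≤ T ^ (2 * (1 - σ)) := Real.one_le_rpow hT (by linarith)
    calc 3 * s ^ 2 = 3 * 1 * (s * (s * 1)) := by ring
      _ ≤ 3 * T ^ ε * (s * (s * T ^ (2 * (1 - σ)))) := by gcongr
      _ ≤ _ := by gcongr
  have f3 : 0 ≤ T0 * T ^ ε * (s * Rz s T σ) := by positivity
  calc ((Q.filter (fun p => 3 ≤ p.2.2)).card : ℝ) + (Q.filter (fun p => ¬ 3 ≤ p.2.2)).card ≤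
        G * D * T ^ ε * (s * Rz s T σ) + 3 * T ^ ε * (s * Rz s T σ) := by linarith
    _ ≤ _ := by nlinarith

end Pool.Agent.X108.ZE
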