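import Pool.Agent.X108.ZE.FN

/-!
# Zeros near sets of small doubling
-/

set_option autoImplicit false

namespace Pool.Agent.X108.ZE

open Complex Metric MeasureTheory Set Filter Topology DH31
open scoped Pointwise
open Pool.Agent.X108.HB (DD ee R3 R3_nonneg ZZ ZZ_nonneg bil_sub WS Z3)

/-- **zeros near a set** -/
theorem host_zeros {ε : ℝ} (hε : 0 < ε) : ∃ C : ℝ, 1 ≤ C ∧ ∀ T : ℝ, 1 ≤ T → ∀ σ : ℝ, 1 / 2 ≤ σ →
    σ ≤ 1 → ∀ P X W : Finset ℤ, X.Nonempty → (∀ n ∈ P, 0 ≤ n ∧ (n : ℝ) ≤ T) →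
    (∀ n ∈ X, 0 ≤ n ∧ (n : ℝ) ≤ T) → W ⊆ P → (∀ n ∈ W, HZ σ n) →
    (W.card : ℝ) * X.card ≤
      C * T ^ ε * (Real.sqrt (Rz X.card T σ) * Real.sqrt (Rz (P + X).card T σ)) := by
  classical
  obtain ⟨δ, hδ'⟩ : ∃ δ : ℝ, δ = min (ε / 8) (1 / 12) := ⟨_, rfl⟩
  have hδ : 0 < δ := by rw [hδ']; exact lt_min (by positivity) (by norm_num)
  have hδ1 : δ ≤ 1 / 12 := by rw [hδ']; exact min_le_right _ _
  have hδ2 : δ ≤ ε / 8 := by rw [hδ']; exact min_le_left _ _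
  obtain ⟨κ, hκ'⟩ : ∃ κ : ℝ, κ = min (ε / 8) 1 := ⟨_, rfl⟩
  have hκ : 0 < κ := by rw [hκ']; exact lt_min (by positivity) one_pos
  have hκ1 : κ ≤ 1 := by rw [hκ']; exact min_le_right _ _
  have hκ2 : κ ≤ ε / 8 := by rw [hκ']; exact min_le_left _ _
  obtain ⟨G, T0, hG, hT0, hmas⟩ := master hδ hδ1 hκ hκ1
  obtain ⟨C2, hC2, hZ3⟩ := Z3 hκ
  obtain ⟨D, hD⟩ : ∃ D : ℝ, D = C2 * (64 * G) ^ κ * (64 * (64 * G) ^ 2) := ⟨_, rfl⟩
  have h64G : (1 : ℝ) ≤ 64 * G := by linarith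
  have hD1 : 1 ≤ D := by
    rw [hD]
    have g1 : 1 ≤ (64 * G) ^ κ := Real.one_le_rpow h64G hκ.le
    have g2 : 1 ≤ 64 * (64 * G) ^ 2 := by nlinarith
    nlinarith [mul_nonneg (by linarith : (0:ℝ) ≤ C2 - 1) (by linarith : (0:ℝ) ≤ (64 * G) ^ κ - 1)]
  refine ⟨3 + G * D + T0, by nlinarith, ?_⟩
  intro T hT σ hσ1 hσ2 P X W hX hP hXT hWP hW
  have hTpos : 0 < T := by linarith
  obtain ⟨s, hs⟩ : ∃ s : ℝ, s = (X.card : ℝ) := ⟨_, rfl⟩
  obtain ⟨r, hr⟩ : ∃ r : ℝ, r = ((P + X).card : ℝ) := ⟨_, rfl⟩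
  obtain ⟨w, hw⟩ : ∃ w : ℝ, w = (W.card : ℝ) := ⟨_, rfl⟩
  have hs1 : 1 ≤ s := by rw [hs]; exact_mod_cast hX.card_pos
  have hs0 : 0 ≤ s := by linarith
  have hr0 : 0 ≤ r := by rw [hr]; exact Nat.cast_nonneg _
  have hw0 : 0 ≤ w := by rw [hw]; exact Nat.cast_nonneg _
  rcases W.eq_empty_or_nonempty with he | hWne
  · rw [he]
    simp only [Finset.card_empty, Nat.cast_zero, zero_mul]
    positivity
  have hw1 : 1 ≤ w := by rw [hw]; exact_mod_cast hWne.card_pos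
  have hPne : P.Nonempty := hWne.mono hWP
  have hwr : w ≤ r := by
    rw [hw, hr]
    have h1 : P.card ≤ (P + X).card := Finset.card_le_card_add_right hX
    exact_mod_cast (Finset.card_le_card hWP).trans h1
  have hsr : s ≤ r := by
    rw [hs, hr]
    have h1 : X.card ≤ (P + X).card := Finset.card_le_card_add_left hPne
    exact_mod_cast h1
  rw [← hs, ← hr, ← hw]
  have hTε : 1 ≤ T ^ ε := Real.one_le_rpow hT hε.le
  have hRs := Rz_nonneg σ hs0 hTpos.le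
  have hRr := Rz_nonneg σ hr0 hTpos.le
  have hGD : 0 ≤ G * D := by positivity
  have hR1 : ∀ x : ℝ, 0 ≤ x → x ^ 2 * T ^ (1 / 2 - σ) ≤ Rz x T σ := by
    intro x hx
    unfold Rz
    have g1 : 0 ≤ x * T ^ (2 * (1 - σ)) := by positivity
    have g2 : 0 ≤ x ^ (5 / 4 : ℝ) * T ^ (1 - σ) := by positivity
    linarith
  have hR2 : ∀ x : ℝ, 0 ≤ x → x * T ^ (2 * (1 - σ)) ≤ Rz x T σ := by
    intro x hx
    unfold Rz
    have g1 : 0 ≤ x ^ 2 * T ^ (1 / 2 - σ) := by positivity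
    have g2 : 0 ≤ x ^ (5 / 4 : ℝ) * T ^ (1 - σ) := by positivity
    linarith
  -- the product of the square roots
  have hsq : s * r * T ^ (1 / 2 - σ) ≤ Real.sqrt (Rz s T σ) * Real.sqrt (Rz r T σ) := by
    rw [← Real.sqrt_mul hRs]
    apply Real.le_sqrt_of_sq_le
    calc (s * r * T ^ (1 / 2 - σ)) ^ 2 = (s ^ 2 * T ^ (1 / 2 - σ)) * (r ^ 2 * T ^ (1 / 2 - σ)) := by ring
      _ ≤ Rz s T σ * Rz r T σ := mul_le_mul (hR1 s hs0) (hR1 r hr0) (by positivity) hRs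
  have hsq2 : s ≤ Real.sqrt (Rz s T σ) * Real.sqrt (Rz r T σ) := by
    rw [← Real.sqrt_mul hRs]
    apply Real.le_sqrt_of_sq_le
    have g1 : 1 ≤ T ^ (2 * (1 - σ)) := Real.one_le_rpow hT (by linarith)
    have g2 : s ≤ Rz s T σ := by
      refine le_trans ?_ (hR2 s hs0)
      nlinarith
    have g3 : s ≤ Rz r T σ := by
      refine le_trans ?_ (hR2 r hr0)
      nlinarith
    calc s ^ 2 = s * s := by ring
      _ ≤ Rz s T σ * Rz r T σ := mul_le_mul g2 g3 hs0 hRs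
  obtain ⟨Y, hY⟩ : ∃ Y : ℝ, Y = Real.sqrt (Rz s T σ) * Real.sqrt (Rz r T σ) := ⟨_, rfl⟩
  have hY0 : 0 ≤ Y := by rw [hY]; positivity
  rw [← hY] at hsq hsq2 ⊢
  have htriv : w * s ≤ s * r := by nlinarith
  rcases lt_or_ge T T0 with hTT | hTT
  · have g1 : 1 ≤ T0 * T ^ (1 / 2 - σ) := by
      have : T ^ (-(1 : ℝ)) ≤ T ^ (1 / 2 - σ) := Real.rpow_le_rpow_of_exponent_le hT (by linarith)
      rw [Real.rpow_neg_one] at this
      calc (1 : ℝ) = T * T⁻¹ := (mul_inv_cancel₀ hTpos.ne').symm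
        _ ≤ T0 * T ^ (1 / 2 - σ) := by gcongr
    calc w * s ≤ s * r * 1 := by linarith
      _ ≤ s * r * (T0 * T ^ (1 / 2 - σ)) := by gcongr
      _ = T0 * 1 * (s * r * T ^ (1 / 2 - σ)) := by ring
      _ ≤ (3 + G * D + T0) * T ^ ε * Y := by
        gcongr
        linarith
  rcases lt_or_ge σ (1 / 2 + 2 * δ) with hσ3 | hσ3
  · have g1 : 1 ≤ T ^ ε * T ^ (1 / 2 - σ) := by
      rw [← Real.rpow_add hTpos]
      exact Real.one_le_rpow hT (by linarith)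
    calc w * s ≤ s * r * 1 := by linarith
      _ ≤ s * r * (T ^ ε * T ^ (1 / 2 - σ)) := by gcongr
      _ = 1 * T ^ ε * (s * r * T ^ (1 / 2 - σ)) := by ring
      _ ≤ (3 + G * D + T0) * T ^ ε * Y := by
        gcongr
        linarith
  -- the main case
  have hT'1 : 1 ≤ 64 * G * T := by nlinarith
  have hWS1 : WS (rl X) 0 (64 * G * T) := by
    apply rl_WS
    intro n hn
    obtain ⟨h1, h2⟩ := hXT n hn
    exact ⟨h1, h2.trans (by nlinarith)⟩
  have hWS2 : WS (rl (P + X)) 0 (64 * G * T) := by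
    apply rl_WS
    intro n hn
    rw [Finset.mem_add] at hn
    obtain ⟨x, hx, y, hy, rfl⟩ := hn
    obtain ⟨h1, h2⟩ := hP x hx
    obtain ⟨h3, h4⟩ := hXT y hy
    refine ⟨by omega, ?_⟩
    push_cast
    nlinarith
  obtain ⟨Ω, hΩ⟩ : ∃ Ω : Finset (ℤ × ℤ), Ω = (W.filter (fun n => 3 ≤ n)) ×ˢ X := ⟨_, rfl⟩
  have hbig := hmas T hTT σ hσ3 hσ2 _ Ω (fun p => p.1)
    (by
      intro x hx
      rw [hΩ, Finset.mem_product, Finset.mem_filter] at hx
      exact ⟨hx.1.2, (hP _ (hWP hx.1.1)).2, hW _ hx.1.1⟩)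
    (D * (T ^ κ * T ^ (4 * δ)) * Y) (by positivity)
    (by
      intro N M0 I a hN hI hNG hM1 hM2 ha
      have hM0 : (0 : ℝ) < M0 := lt_of_lt_of_le (Real.rpow_pos_of_pos hTpos _) hM1
      have hI1 : ∀ n ∈ I, 1 ≤ n := fun n hn => (Finset.mem_Icc.1 (hI hn)).1
      have hN2T : (N : ℝ) ≤ 2 * (64 * G * T) := by
        calc (N : ℝ) ≤ G * M0 := hNG
          _ ≤ G * (64 * T) := by gcongr
          _ ≤ _ := by nlinarith
      have hzz1 := hZ3 (64 * G * T) hT'1 (rl X) 0 hWS1 N hN hN2T I hI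
      have hzz2 := hZ3 (64 * G * T) hT'1 (rl (P + X)) 0 hWS2 N hN hN2T I hI
      rw [rl_card, ← hs] at hzz1
      rw [rl_card, ← hr] at hzz2
      have k1 : ∑ x ∈ Ω, ‖DD I a (-((x.1 : ℤ) : ℝ))‖ ^ 2 ≤
          Real.sqrt (ZZ I (rl X)) * Real.sqrt (ZZ I (rl (P + X))) := by
        have hinj : Set.InjOn (fun p : ℤ × ℤ => (p.2, p.1 + p.2)) (Ω : Set _) := by
          intro p _ q _ hpq
          simp only [Prod.mk.injEq] at hpq
          refine Prod.ext ?_ hpq.1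
          omega
        have j2 : ∑ x ∈ Ω, ‖DD I a (-((x.1 : ℤ) : ℝ))‖ ^ 2 =
            ∑ q ∈ Ω.image (fun p : ℤ × ℤ => (p.2, p.1 + p.2)),
              ‖DD I a (0 + (q.1 : ℝ) - (q.2 : ℝ))‖ ^ 2 := by
          rw [Finset.sum_image hinj]
          refine Finset.sum_congr rfl fun x hx => ?_
          congr 3
          push_cast
          ring
        have j3 : ∑ q ∈ Ω.image (fun p : ℤ × ℤ => (p.2, p.1 + p.2)),
              ‖DD I a (0 + (q.1 : ℝ) - (q.2 : ℝ))‖ ^ 2 ≤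
            ∑ q ∈ X ×ˢ (P + X), ‖DD I a (0 + (q.1 : ℝ) - (q.2 : ℝ))‖ ^ 2 := by
          refine Finset.sum_le_sum_of_subset_of_nonneg ?_ fun _ _ _ => by positivity
          intro q hq
          rw [Finset.mem_image] at hq
          obtain ⟨p, hp, rfl⟩ := hq
          rw [hΩ, Finset.mem_product, Finset.mem_filter] at hp
          rw [Finset.mem_product]
          exact ⟨hp.2, Finset.add_mem_add (hWP hp.1.1) hp.2⟩
        have j4 : ∑ q ∈ X ×ˢ (P + X), ‖DD I a (0 + (q.1 : ℝ) - (q.2 : ℝ))‖ ^ 2 =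
            ∑ x ∈ rl X, ∑ y ∈ rl (P + X), ‖DD I a (0 + x - y)‖ ^ 2 := by
          rw [Finset.sum_product, sum_rl]
          refine Finset.sum_congr rfl fun x _ => ?_
          rw [sum_rl]
        have j5 := bil_sub hI1 a ha (rl X) (rl (P + X)) 0
        linarith
      have k2 := rz hδ hG hT hσ3 hσ2 hs0 (Nat.cast_nonneg N) hNG hM1 hM2
      have k2' := rz hδ hG hT hσ3 hσ2 hr0 (Nat.cast_nonneg N) hNG hM1 hM2
      have hMp : 0 < (M0 : ℝ) ^ (-2 * (σ - 2 * δ)) := Real.rpow_pos_of_pos hM0 _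
      have k3 : (64 * G * T) ^ κ = (64 * G) ^ κ * T ^ κ := Real.mul_rpow (by linarith) hTpos.le
      -- one factor
      have k4 : ∀ (x z : ℝ), 0 ≤ x → 0 ≤ Rz x T σ → 0 ≤ z →
          z ≤ C2 * (64 * G * T) ^ κ * R3 x (64 * G * T) N →
          (M0 : ℝ) ^ (-2 * (σ - 2 * δ)) * R3 x (64 * G * T) N ≤
            64 * (64 * G) ^ 2 * T ^ (4 * δ) * Rz x T σ →
          (M0 : ℝ) ^ (-2 * (σ - 2 * δ)) * z ≤ D * (T ^ κ * T ^ (4 * δ)) * Rz x T σ := by
        intro x z hx hRx hz h1 h2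
        calc (M0 : ℝ) ^ (-2 * (σ - 2 * δ)) * z ≤
              (M0 : ℝ) ^ (-2 * (σ - 2 * δ)) * (C2 * (64 * G * T) ^ κ * R3 x (64 * G * T) N) := by
                gcongr
          _ = (C2 * ((64 * G) ^ κ * T ^ κ)) *
                ((M0 : ℝ) ^ (-2 * (σ - 2 * δ)) * R3 x (64 * G * T) N) := by rw [k3]; ring
          _ ≤ (C2 * ((64 * G) ^ κ * T ^ κ)) * (64 * (64 * G) ^ 2 * T ^ (4 * δ) * Rz x T σ) := by
                gcongr
          _ = _ := by rw [hD]; ring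
      have k5 := k4 s (ZZ I (rl X)) hs0 hRs (ZZ_nonneg _ _) hzz1 k2
      have k6 := k4 r (ZZ I (rl (P + X))) hr0 hRr (ZZ_nonneg _ _) hzz2 k2'
      obtain ⟨μ, hμ⟩ : ∃ μ : ℝ, μ = (M0 : ℝ) ^ (-2 * (σ - 2 * δ)) := ⟨_, rfl⟩
      obtain ⟨H, hH⟩ : ∃ H : ℝ, H = D * (T ^ κ * T ^ (4 * δ)) := ⟨_, rfl⟩
      have hH0 : 0 ≤ H := by rw [hH]; positivity
      rw [← hμ, ← hH] at k5 k6
      rw [← hμ] at hMp
      rw [← hμ, ← hH]
      have k7 : μ * (Real.sqrt (ZZ I (rl X)) * Real.sqrt (ZZ I (rl (P + X)))) =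
          Real.sqrt (μ * ZZ I (rl X)) * Real.sqrt (μ * ZZ I (rl (P + X))) := by
        rw [Real.sqrt_mul hMp.le, Real.sqrt_mul hMp.le]
        have : Real.sqrt μ * Real.sqrt μ = μ := Real.mul_self_sqrt hMp.le
        linear_combination (-(Real.sqrt (ZZ I (rl X)) * Real.sqrt (ZZ I (rl (P + X))))) * this
      calc μ * ∑ x ∈ Ω, ‖DD I a (-((x.1 : ℤ) : ℝ))‖ ^ 2 ≤
            μ * (Real.sqrt (ZZ I (rl X)) * Real.sqrt (ZZ I (rl (P + X)))) := by gcongr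
        _ = Real.sqrt (μ * ZZ I (rl X)) * Real.sqrt (μ * ZZ I (rl (P + X))) := k7
        _ ≤ Real.sqrt (H * Rz s T σ) * Real.sqrt (H * Rz r T σ) :=
            mul_le_mul (Real.sqrt_le_sqrt k5) (Real.sqrt_le_sqrt k6) (Real.sqrt_nonneg _)
              (Real.sqrt_nonneg _)
        _ = H * Y := by
            rw [Real.sqrt_mul hH0, Real.sqrt_mul hH0, hY]
            have : Real.sqrt H * Real.sqrt H = H := Real.mul_self_sqrt hH0
            linear_combination (Real.sqrt (Rz s T σ) * Real.sqrt (Rz r T σ)) * this)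
  have hexp : T ^ (2 * κ) * (T ^ κ * T ^ (4 * δ)) ≤ T ^ ε := by
    rw [← Real.rpow_add hTpos, ← Real.rpow_add hTpos]
    exact Real.rpow_le_rpow_of_exponent_le hT (by linarith)
  have f1 : (Ω.card : ℝ) ≤ G * D * T ^ ε * Y := by
    refine hbig.trans ?_
    calc G * T ^ (2 * κ) * (D * (T ^ κ * T ^ (4 * δ)) * Y) =
          G * D * (T ^ (2 * κ) * (T ^ κ * T ^ (4 * δ))) * Y := by ring
      _ ≤ G * D * T ^ ε * Y := by gcongr
  have f0 : w ≤ ((W.filter (fun n => 3 ≤ n)).card : ℝ) + 3 := by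
    have h1 : W.card ≤ (W.filter (fun n => 3 ≤ n)).card + 3 := by
      have h2 := Finset.card_filter_add_card_filter_not (s := W) (fun n => 3 ≤ n)
      have h3 : (W.filter (fun n => ¬ 3 ≤ n)).card ≤ 3 := by
        have : W.filter (fun n => ¬ 3 ≤ n) ⊆ Finset.Icc (0 : ℤ) 2 := by
          intro n hn
          rw [Finset.mem_filter] at hn
          have := (hP n (hWP hn.1)).1
          rw [Finset.mem_Icc]
          omega
        have := Finset.card_le_card this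
        rw [Int.card_Icc] at this
        simpa using this
      omega
    rw [hw]
    exact_mod_cast h1
  have hΩc : (Ω.card : ℝ) = ((W.filter (fun n => 3 ≤ n)).card : ℝ) * s := by
    rw [hΩ, Finset.card_product, hs]
    push_cast
    ring
  calc w * s ≤ (((W.filter (fun n => 3 ≤ n)).card : ℝ) + 3) * s := by gcongr
    _ = Ω.card + 3 * s := by rw [hΩc]; ring
    _ ≤ G * D * T ^ ε * Y + 3 * (T ^ ε * Y) := by
        have : s ≤ T ^ ε * Y := by nlinarith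
        linarith
    _ ≤ _ := by
        have : 0 ≤ T0 * (T ^ ε * Y) := by positivity
        nlinarith

end Pool.Agent.X108.ZE
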