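import Pool.Agent.H158I.BGMV

/-!
# Area means of entire functions
-/

set_option autoImplicit false

namespace Pool.Agent.X108.ZE

open MeasureTheory Metric Set Complex

theorem area {ι : Type*} (S : Finset ι) (w : ι → ℝ) (hw : ∀ i ∈ S, 0 ≤ w i) (h : ι → ℝ)
    (P : ℂ → ℂ) (hP : Differentiable ℂ P) {V M r : ℝ} (hV : 0 ≤ V) (hr : 0 < r) (hr1 : r ≤ 1)
    (z : ι → ℂ) (hz : ∀ i ∈ S, 0 ≤ (z i).re ∧ (z i).re ≤ 3 ∧ |(z i).im - h i| ≤ 3 ∧ V ≤ ‖P (z i)‖)
    (hM : ∀ u : ℂ, -r ≤ u.re → ‖u‖ < 8 → ∑ i ∈ S, w i * ‖P (h i * I + u)‖ ^ 2 ≤ M) :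
    V ^ 2 * ∑ i ∈ S, w i ≤ 64 / r ^ 2 * M := by
  have hM0 : 0 ≤ M := by
    refine le_trans ?_ (hM 0 (by simpa using hr.le) (by simp))
    exact Finset.sum_nonneg fun i hi => mul_nonneg (hw i hi) (by positivity)
  set K : Set ℂ := {u : ℂ | -r ≤ u.re ∧ ‖u‖ < 8} with hK
  have hKm : MeasurableSet K := by
    rw [hK]
    exact (measurableSet_le measurable_const Complex.measurable_re).inter
      (measurableSet_lt measurable_norm measurable_const)
  have hvr : ∀ c : ℂ, volume (ball c r) = ENNReal.ofReal (r ^ 2) * NNReal.pi := by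
    intro c
    rw [Complex.volume_ball, ENNReal.ofReal_pow hr.le]
  have hvK : volume K ≤ ENNReal.ofReal 64 * NNReal.pi := by
    have h1 : K ⊆ ball (0 : ℂ) 8 := by
      intro u hu
      rw [mem_ball_zero_iff]
      exact hu.2
    refine (measure_mono h1).trans ?_
    rw [Complex.volume_ball]
    have : ENNReal.ofReal 64 = ENNReal.ofReal 8 ^ 2 := by
      rw [← ENNReal.ofReal_pow (by norm_num)]; norm_num
    rw [this]
  -- one point
  have hone : ∀ i ∈ S, ENNReal.ofReal (V ^ 2) * (ENNReal.ofReal (r ^ 2) * NNReal.pi) ≤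
      ∫⁻ u in K, ENNReal.ofReal (‖P (h i * I + u)‖ ^ 2) := by
    intro i hi
    obtain ⟨h1, h2, h3, h4⟩ := hz i hi
    have hmv := Pool.Agent.H158I.BGMV.taskMV ℂ volume (z i) r P hr hP.differentiableOn
    have e1 : ENNReal.ofReal (V ^ 2) ≤ ‖P (z i)‖ₑ ^ 2 := by
      rw [← ofReal_norm, ← ENNReal.ofReal_pow (norm_nonneg _)]
      exact ENNReal.ofReal_le_ofReal (pow_le_pow_left₀ hV h4 2)
    rw [hvr] at hmv
    refine (mul_le_mul' e1 le_rfl).trans (hmv.trans ?_)
    set f : ℂ → ENNReal := fun y => ‖P y‖ₑ ^ 2 with hf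
    rw [← lintegral_indicator measurableSet_ball, ← lintegral_indicator hKm]
    rw [← lintegral_add_left_eq_self _ ((h i : ℂ) * I)]
    refine lintegral_mono fun u => ?_
    by_cases hu : (h i : ℂ) * I + u ∈ ball (z i) r
    · have hu' := hu
      rw [mem_ball, dist_eq_norm] at hu'
      have hre : |((h i : ℂ) * I + u - z i).re| < r := (Complex.abs_re_le_norm _).trans_lt hu'
      have him : |((h i : ℂ) * I + u - z i).im| < r := (Complex.abs_im_le_norm _).trans_lt hu'
      simp only [sub_re, add_re, mul_re, ofReal_re, I_re, mul_zero, ofReal_im, I_im, mul_one,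
        sub_self, zero_add, sub_im, add_im, mul_im, add_zero] at hre him
      rw [abs_lt] at hre him
      rw [abs_le] at h3
      have huK : u ∈ K := by
        refine ⟨by linarith, ?_⟩
        have g1 : |u.re| ≤ 4 := by rw [abs_le]; constructor <;> linarith
        have g2 : |u.im| ≤ 4 := by rw [abs_le]; constructor <;> linarith
        have g3 : ‖u‖ ^ 2 = u.re ^ 2 + u.im ^ 2 := by
          rw [← Complex.normSq_eq_norm_sq, Complex.normSq_apply]; ring
        have g4 : u.re ^ 2 ≤ 16 := by rw [← sq_abs]; nlinarith [abs_nonneg u.re]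
        have g5 : u.im ^ 2 ≤ 16 := by rw [← sq_abs]; nlinarith [abs_nonneg u.im]
        nlinarith [norm_nonneg u]
      rw [indicator_of_mem hu, indicator_of_mem huK, ENNReal.ofReal_pow (norm_nonneg _), ofReal_norm]
    · rw [indicator_of_notMem hu]
      exact zero_le
  -- the sum
  have hsum : ENNReal.ofReal (V ^ 2 * ∑ i ∈ S, w i) * (ENNReal.ofReal (r ^ 2) * NNReal.pi) ≤
      ENNReal.ofReal M * (ENNReal.ofReal 64 * NNReal.pi) := by
    have e1 : ENNReal.ofReal (V ^ 2 * ∑ i ∈ S, w i) * (ENNReal.ofReal (r ^ 2) * NNReal.pi) =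
        ∑ i ∈ S, ENNReal.ofReal (w i) *
          (ENNReal.ofReal (V ^ 2) * (ENNReal.ofReal (r ^ 2) * NNReal.pi)) := by
      rw [← Finset.sum_mul, ← ENNReal.ofReal_sum_of_nonneg hw, ENNReal.ofReal_mul (sq_nonneg V)]
      ring
    rw [e1]
    calc ∑ i ∈ S, ENNReal.ofReal (w i) *
          (ENNReal.ofReal (V ^ 2) * (ENNReal.ofReal (r ^ 2) * NNReal.pi))
        ≤ ∑ i ∈ S, ENNReal.ofReal (w i) * ∫⁻ u in K, ENNReal.ofReal (‖P (h i * I + u)‖ ^ 2) :=
          Finset.sum_le_sum fun i hi => mul_le_mul' le_rfl (hone i hi)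
      _ = ∫⁻ u in K, ∑ i ∈ S, ENNReal.ofReal (w i) * ENNReal.ofReal (‖P (h i * I + u)‖ ^ 2) := by
          rw [lintegral_finsetSum']
          · refine Finset.sum_congr rfl fun i _ => ?_
            rw [lintegral_const_mul' _ _ ENNReal.ofReal_ne_top]
          · intro i _
            have hc : Continuous (fun u : ℂ => ENNReal.ofReal (‖P (h i * I + u)‖ ^ 2)) := by
              have := hP.continuous
              exact ENNReal.continuous_ofReal.comp (by fun_prop)
            exact (hc.measurable.const_mul _).aemeasurable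
      _ ≤ ∫⁻ _ in K, ENNReal.ofReal M := by
          refine setLIntegral_mono' hKm fun u hu => ?_
          have e2 : ∑ i ∈ S, ENNReal.ofReal (w i) * ENNReal.ofReal (‖P (h i * I + u)‖ ^ 2) =
              ENNReal.ofReal (∑ i ∈ S, w i * ‖P (h i * I + u)‖ ^ 2) := by
            rw [ENNReal.ofReal_sum_of_nonneg fun i hi => mul_nonneg (hw i hi) (by positivity)]
            refine Finset.sum_congr rfl fun i hi => ?_
            rw [ENNReal.ofReal_mul (hw i hi)]
          rw [e2]
          exact ENNReal.ofReal_le_ofReal (hM u hu.1 hu.2)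
      _ = ENNReal.ofReal M * volume K := by rw [setLIntegral_const]
      _ ≤ _ := mul_le_mul' le_rfl hvK
  have hpi0 : (NNReal.pi : ENNReal) ≠ 0 := by
    rw [Ne, ENNReal.coe_eq_zero]
    exact NNReal.pi_ne_zero
  have hpit : (NNReal.pi : ENNReal) ≠ ⊤ := ENNReal.coe_ne_top
  rw [← mul_assoc, ← mul_assoc, ENNReal.mul_le_mul_iff_left hpi0 hpit,
    ← ENNReal.ofReal_mul (mul_nonneg (sq_nonneg V) (Finset.sum_nonneg hw)),
    ← ENNReal.ofReal_mul hM0, ENNReal.ofReal_le_ofReal_iff (by positivity)] at hsum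
  rw [div_mul_eq_mul_div, le_div_iff₀ (by positivity)]
  linarith

end Pool.Agent.X108.ZE
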