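import Pool.Agent.X108.ZE.DT
import Pool.Agent.X108.ZE.AM
import Pool.Agent.X108.HB.Z3

/-!
# One detecting polynomial
-/

set_option autoImplicit false

namespace Pool.Agent.X108.ZE

open Complex Metric MeasureTheory Set Filter Topology DH31
open Pool.Agent.X108.HB (DD ee R3 ZZ)

lemma ls_pow {b : ArithmeticFunction ℂ} {N Y : ℕ} (hb : ∀ n, b n ≠ 0 → N ≤ n ∧ n ≤ Y)
    (m : ℕ) (s : ℂ) :
    LSeries (fun n => (b ^ m) n) s = (LSeries (fun n => b n) s) ^ m := by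
  have hb' : ∀ n, b n ≠ 0 → n ≤ Y := fun n hn => (hb n hn).2
  induction m with
  | zero =>
    rw [pow_zero, pow_zero]
    have h1 : (fun n => (1 : ArithmeticFunction ℂ) n) = LSeries.delta := by
      ext n
      unfold LSeries.delta
      rw [ArithmeticFunction.one_apply]
    rw [h1, LSeries_delta]
    rfl
  | succ m ih =>
    rw [pow_succ, pow_succ, ← ih]
    exact ArithmeticFunction.LSeries_mul' (f := b ^ m) (g := b)
      (summable_af (fun n hn => (pow_support hb m n hn).2) _) (summable_af hb' _)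

lemma ls_diff {b : ArithmeticFunction ℂ} {Y : ℕ} (hb : ∀ n, b n ≠ 0 → n ≤ Y) :
    Differentiable ℂ (fun s => LSeries (fun n => b n) s) := by
  have e : (fun s => LSeries (fun n => b n) s) =
      fun s => ∑ n ∈ Finset.Icc 1 Y, b n * (n : ℂ) ^ (-s) := by
    funext s; exact ls_eq hb s
  rw [e]
  intro w
  apply DifferentiableAt.fun_sum
  intro n hn
  rw [Finset.mem_Icc] at hn
  have hn0 : (n : ℂ) ≠ 0 := by
    have : n ≠ 0 := by omega
    exact_mod_cast this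
  exact ((differentiableAt_id.neg).const_cpow (Or.inl hn0)).const_mul _

/-- the values near a vertical line -/
lemma eval_pow {b : ArithmeticFunction ℂ} {N m : ℕ} {a r A : ℝ} (hN : 1 ≤ N)
    (hb : ∀ n, b n ≠ 0 → N ≤ n ∧ n ≤ 2 * N)
    (hbn : ∀ n : ℕ, 1 ≤ n → ‖b n‖ ≤ (n.divisors.card : ℝ) * (n : ℝ) ^ (-a)) (hA : 0 < A)
    (hAb : ∀ n ∈ Finset.Icc (N ^ m) ((2 * N) ^ m),
      (n.divisors.card : ℝ) ^ (2 * m) * (n : ℝ) ^ (-a) * (n : ℝ) ^ r ≤ A)
    {u : ℂ} (hu : -r ≤ u.re) :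
    ∃ a' : ℕ → ℂ, (∀ n ∈ Finset.Icc (N ^ m) ((2 * N) ^ m), ‖a' n‖ ≤ 1) ∧
      ∀ h : ℝ, ‖LSeries (fun n => (b ^ m) n) (h * I + u)‖ =
        A * ‖DD (Finset.Icc (N ^ m) ((2 * N) ^ m)) a' (-h)‖ := by
  have hNm : 1 ≤ N ^ m := Nat.one_le_pow _ _ hN
  refine ⟨fun n => (b ^ m) n * (n : ℂ) ^ (-u) / A, ?_, ?_⟩
  · intro n hn
    have hn' := hn
    rw [Finset.mem_Icc] at hn
    have hn1 : 1 ≤ n := hNm.trans hn.1
    have hnr : (1 : ℝ) ≤ n := by exact_mod_cast hn1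
    rw [norm_div, norm_mul, Complex.norm_real, Real.norm_of_nonneg hA.le, div_le_one hA,
      Complex.norm_natCast_cpow_of_pos hn1, Complex.neg_re]
    have h1 := pow_bound hbn m n hn1
    have h2 := Real.rpow_le_rpow_of_exponent_le hnr (show -u.re ≤ r by linarith)
    calc ‖(b ^ m) n‖ * (n : ℝ) ^ (-u.re) ≤
          ((n.divisors.card : ℝ) ^ (2 * m) * (n : ℝ) ^ (-a)) * (n : ℝ) ^ r := by gcongr
      _ ≤ A := hAb n hn'
  · intro h
    rw [ls_eq (fun n hn => (pow_support hb m n hn).2)]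
    have e1 : ∑ n ∈ Finset.Icc 1 ((2 * N) ^ m), (b ^ m) n * (n : ℂ) ^ (-((h : ℂ) * I + u)) =
        ∑ n ∈ Finset.Icc (N ^ m) ((2 * N) ^ m), (b ^ m) n * (n : ℂ) ^ (-((h : ℂ) * I + u)) := by
      symm
      refine Finset.sum_subset (Finset.Icc_subset_Icc_left hNm) ?_
      intro n hn hn2
      have : (b ^ m) n = 0 := by
        by_contra h0
        have := pow_support hb m n h0
        exact hn2 (Finset.mem_Icc.2 this)
      rw [this, zero_mul]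
    have eA : A * ‖DD (Finset.Icc (N ^ m) ((2 * N) ^ m)) (fun n => (b ^ m) n * (n : ℂ) ^ (-u) / A)
        (-h)‖ = ‖(A : ℂ) * DD (Finset.Icc (N ^ m) ((2 * N) ^ m))
        (fun n => (b ^ m) n * (n : ℂ) ^ (-u) / A) (-h)‖ := by
      rw [norm_mul, Complex.norm_real, Real.norm_of_nonneg hA.le]
    rw [e1, eA]
    congr 1
    unfold DD
    rw [Finset.mul_sum]
    refine Finset.sum_congr rfl fun n hn => ?_
    rw [Finset.mem_Icc] at hn
    have hn1 : 1 ≤ n := hNm.trans hn.1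
    have hn0 : (n : ℂ) ≠ 0 := by
      have : n ≠ 0 := by omega
      exact_mod_cast this
    have hA0 : (A : ℂ) ≠ 0 := by exact_mod_cast hA.ne'
    have e2 : ee (-h) (n : ℚ) = (n : ℂ) ^ (-((h : ℂ) * I)) := by
      unfold ee
      rw [Complex.cpow_def_of_ne_zero hn0, ← Complex.natCast_log]
      congr 1
      push_cast
      ring
    rw [e2, neg_add, add_comm, Complex.cpow_add _ _ hn0]
    field_simp

/-- the number of large values of one detecting polynomial -/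
theorem colour {δ κ c : ℝ} (hδ : 0 < δ) (hδ1 : δ ≤ 1) (hκ : 0 < κ) (hκ1 : κ ≤ 1) (hc : 0 < c) :
    ∃ (m0 : ℕ) (C T0 : ℝ), 1 ≤ C ∧ 1 ≤ T0 ∧ ∀ T : ℝ, T0 ≤ T → ∀ σ : ℝ, 1 / 2 + 2 * δ ≤ σ → σ ≤ 1 →
    ∀ (b : ArithmeticFunction ℂ) (e : ℕ), (∀ n, b n ≠ 0 → 2 ^ e ≤ n ∧ n ≤ 2 ^ (e + 1)) →
    (∀ n : ℕ, 1 ≤ n → ‖b n‖ ≤ (n.divisors.card : ℝ) * (n : ℝ) ^ (-(σ - δ))) →
    T ^ c ≤ ((2 ^ e : ℕ) : ℝ) → ((2 ^ e : ℕ) : ℝ) ≤ 64 * T →
    ∃ (M0 N : ℕ) (I : Finset ℕ), 1 ≤ N ∧ I ⊆ Finset.Icc 1 N ∧ (N : ℝ) ≤ 2 ^ m0 * M0 ∧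
      T ^ (1 / 2 : ℝ) ≤ M0 ∧ (M0 : ℝ) ≤ 64 * T ∧
      ∀ (ι : Type) (S : Finset ι) (h : ι → ℝ) (z : ι → ℂ),
        (∀ i ∈ S, 0 ≤ (z i).re ∧ (z i).re ≤ 3 ∧ |(z i).im - h i| ≤ 3 ∧
          ((Real.log T) ^ 3)⁻¹ ≤ ‖LSeries (fun n => b n) (z i)‖) →
        ∀ M : ℝ, 0 ≤ M → (∀ a' : ℕ → ℂ, (∀ n ∈ I, ‖a' n‖ ≤ 1) →
          ∑ i ∈ S, ‖DD I a' (-(h i))‖ ^ 2 ≤ M) →
        (S.card : ℝ) ≤ C * T ^ κ * (M0 : ℝ) ^ (-2 * (σ - 2 * δ)) * M := by
  set m0 : ℕ := ⌈1 / (2 * c)⌉₊ + 1 with hm0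
  have hm01 : 1 ≤ m0 := by omega
  have hm0r : (1 : ℝ) ≤ m0 := by exact_mod_cast hm01
  obtain ⟨Cd, hCd1, hCd⟩ := div_bound (ε := κ / (8 * m0)) (by positivity)
  have ev1 := ev_log 1 (κ / 2) (6 * m0) (by positivity)
  have ev2 : ∀ᶠ T : ℝ in atTop, 1 ≤ Real.log T := Real.tendsto_log_atTop.eventually_ge_atTop _
  obtain ⟨T2, hT2⟩ := Filter.eventually_atTop.1 ((ev1.and ev2).and (eventually_ge_atTop (1 : ℝ)))
  refine ⟨m0, 64 / δ ^ 2 * (Cd ^ (2 * m0) * (2 ^ m0 * 64)) ^ 2, max T2 1, ?_, le_max_right _ _, ?_⟩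
  · have h1 : 1 ≤ 64 / δ ^ 2 := by
      rw [le_div_iff₀ (by positivity)]
      nlinarith
    have h2 : 1 ≤ Cd ^ (2 * m0) * (2 ^ m0 * 64) := by
      have g1 : 1 ≤ Cd ^ (2 * m0) := one_le_pow₀ hCd1
      have g2 : (1 : ℝ) ≤ 2 ^ m0 := one_le_pow₀ (by norm_num)
      nlinarith
    nlinarith [one_le_pow₀ (n := 2) h2]
  intro T hT σ hσ1 hσ2 b e hbs hbn hc1 hc2
  obtain ⟨⟨e1, e2⟩, e3⟩ := hT2 T ((le_max_left _ _).trans hT)
  have hTpos : 0 < T := by linarith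
  set N : ℕ := 2 ^ e with hN
  have hN1 : 1 ≤ N := Nat.one_le_two_pow
  have hNr : (1 : ℝ) ≤ N := by exact_mod_cast hN1
  have hbs' : ∀ n, b n ≠ 0 → N ≤ n ∧ n ≤ 2 * N := by
    intro n hn
    have := hbs n hn
    rw [pow_succ, mul_comm] at this
    exact this
  have hT1 : 1 < T := by
    by_contra h
    have : T = 1 := le_antisymm (not_lt.1 h) e3
    rw [this, Real.log_one] at e2
    linarith
  have hlogT : 0 < Real.log T := by linarith
  have hlogN : c * Real.log T ≤ Real.log N := by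
    rw [← Real.log_rpow hTpos]
    exact Real.log_le_log (by positivity) hc1
  have hlogNpos : 0 < Real.log N := lt_of_lt_of_le (by positivity) hlogN
  set m : ℕ := ⌈Real.log T / (2 * Real.log N)⌉₊ with hm
  have hx0 : 0 < Real.log T / (2 * Real.log N) := by positivity
  have hm1 : Real.log T / (2 * Real.log N) ≤ m := Nat.le_ceil _
  have hm1' : 1 ≤ m := Nat.ceil_pos.2 hx0
  have hm2 : (m : ℝ) ≤ Real.log T / (2 * Real.log N) + 1 :=
    (Nat.ceil_lt_add_one hx0.le).le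
  have hmm0 : m ≤ m0 := by
    have h1 : Real.log T / (2 * Real.log N) ≤ 1 / (2 * c) := by
      rw [div_le_div_iff₀ (by positivity) (by positivity)]
      nlinarith
    rw [hm, hm0]
    exact (Nat.ceil_le_ceil h1).trans (by omega)
  have hNm1 : T ^ (1 / 2 : ℝ) ≤ (N : ℝ) ^ m := by
    rw [div_le_iff₀ (by positivity)] at hm1
    calc T ^ (1 / 2 : ℝ) = Real.exp (Real.log T * (1 / 2)) := Real.rpow_def_of_pos hTpos _
      _ ≤ Real.exp (m * Real.log N) := Real.exp_le_exp.2 (by linarith)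
      _ = (N : ℝ) ^ m := by rw [Real.exp_nat_mul, Real.exp_log (by linarith)]
  have hNm2 : (N : ℝ) ^ m ≤ 64 * T := by
    rcases Nat.lt_or_ge 1 m with hm3 | hm3
    · have h1 : 1 < Real.log T / (2 * Real.log N) := by
        have := Nat.lt_ceil.1 hm3
        simpa using this
      rw [lt_div_iff₀ (by positivity)] at h1
      have h2 : (m : ℝ) * Real.log N ≤ Real.log T := by
        have h3 : (m : ℝ) * Real.log N ≤ (Real.log T / (2 * Real.log N) + 1) * Real.log N := by gcongr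
        have h4 : (Real.log T / (2 * Real.log N) + 1) * Real.log N = Real.log T / 2 + Real.log N := by
          field_simp
        linarith
      calc (N : ℝ) ^ m = Real.exp (m * Real.log N) := by
            rw [Real.exp_nat_mul, Real.exp_log (by linarith)]
        _ ≤ Real.exp (Real.log T) := Real.exp_le_exp.2 h2
        _ = T := Real.exp_log hTpos
        _ ≤ _ := by linarith
    · have : m = 1 := by omega
      rw [this, pow_one]
      exact hc2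
  have h2m : (2 : ℝ) ^ m ≤ 2 ^ m0 := pow_le_pow_right₀ (by norm_num) hmm0
  -- the coefficients
  set A : ℝ := Cd ^ (2 * m0) * (2 ^ m0 * 64) * T ^ (κ / 4) *
    (((N ^ m : ℕ)) : ℝ) ^ (-(σ - 2 * δ)) with hA
  have hNm0 : (0 : ℝ) < ((N ^ m : ℕ) : ℝ) := by positivity
  have hA0 : 0 < A := by positivity
  have hAb : ∀ n ∈ Finset.Icc (N ^ m) ((2 * N) ^ m),
      (n.divisors.card : ℝ) ^ (2 * m) * (n : ℝ) ^ (-(σ - δ)) * (n : ℝ) ^ δ ≤ A := by
    intro n hn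
    rw [Finset.mem_Icc] at hn
    have hn1 : 1 ≤ n := (Nat.one_le_pow _ _ hN1).trans hn.1
    have hnr : (1 : ℝ) ≤ n := by exact_mod_cast hn1
    have hn0 : (0 : ℝ) < n := by linarith
    have h1 := hCd n hn1
    have hx1 : 1 ≤ Cd * (n : ℝ) ^ (κ / (8 * m0)) := by
      have : 1 ≤ (n : ℝ) ^ (κ / (8 * m0)) := Real.one_le_rpow hnr (by positivity)
      nlinarith
    have h2 : (n.divisors.card : ℝ) ^ (2 * m) ≤ Cd ^ (2 * m0) * (n : ℝ) ^ (κ / 4) := by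
      calc (n.divisors.card : ℝ) ^ (2 * m) ≤ (Cd * (n : ℝ) ^ (κ / (8 * m0))) ^ (2 * m) := by gcongr
        _ ≤ (Cd * (n : ℝ) ^ (κ / (8 * m0))) ^ (2 * m0) := pow_le_pow_right₀ hx1 (by omega)
        _ = Cd ^ (2 * m0) * (n : ℝ) ^ (κ / 4) := by
            rw [mul_pow, ← Real.rpow_natCast ((n : ℝ) ^ (κ / (8 * m0))), ← Real.rpow_mul (by positivity)]
            congr 2
            push_cast
            field_simp
            norm_num
    have hnT : (n : ℝ) ≤ 2 ^ m0 * 64 * T := by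
      have h3 : (n : ℝ) ≤ (((2 * N) ^ m : ℕ) : ℝ) := by exact_mod_cast hn.2
      push_cast at h3
      rw [mul_pow] at h3
      calc (n : ℝ) ≤ 2 ^ m * (N : ℝ) ^ m := h3
        _ ≤ 2 ^ m0 * (64 * T) := by gcongr
        _ = _ := by ring
    have h4 : (n : ℝ) ^ (κ / 4) ≤ (2 ^ m0 * 64) * T ^ (κ / 4) := by
      calc (n : ℝ) ^ (κ / 4) ≤ (2 ^ m0 * 64 * T) ^ (κ / 4) := by gcongr
        _ = (2 ^ m0 * 64) ^ (κ / 4) * T ^ (κ / 4) := Real.mul_rpow (by positivity) hTpos.le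
        _ ≤ (2 ^ m0 * 64) * T ^ (κ / 4) := by
            have : ((2 : ℝ) ^ m0 * 64) ^ (κ / 4) ≤ 2 ^ m0 * 64 := by
              have h5 : (1 : ℝ) ≤ 2 ^ m0 * 64 := by
                have : (1 : ℝ) ≤ 2 ^ m0 := one_le_pow₀ (by norm_num)
                linarith
              calc ((2 : ℝ) ^ m0 * 64) ^ (κ / 4) ≤ ((2 : ℝ) ^ m0 * 64) ^ (1 : ℝ) :=
                    Real.rpow_le_rpow_of_exponent_le h5 (by linarith)
                _ = _ := Real.rpow_one _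
            gcongr
    have h6 : (n : ℝ) ^ (-(σ - δ)) * (n : ℝ) ^ δ ≤ (((N ^ m : ℕ)) : ℝ) ^ (-(σ - 2 * δ)) := by
      rw [← Real.rpow_add hn0, show -(σ - δ) + δ = -(σ - 2 * δ) by ring]
      exact Real.rpow_le_rpow_of_nonpos hNm0 (by exact_mod_cast hn.1) (by linarith)
    rw [mul_assoc]
    calc (n.divisors.card : ℝ) ^ (2 * m) * ((n : ℝ) ^ (-(σ - δ)) * (n : ℝ) ^ δ) ≤
          (Cd ^ (2 * m0) * ((2 ^ m0 * 64) * T ^ (κ / 4))) * (((N ^ m : ℕ)) : ℝ) ^ (-(σ - 2 * δ)) := by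
            refine mul_le_mul (h2.trans ?_) h6 (by positivity) (by positivity)
            gcongr
      _ = A := by rw [hA]; ring
  refine ⟨N ^ m, (2 * N) ^ m, Finset.Icc (N ^ m) ((2 * N) ^ m), Nat.one_le_pow _ _ (by omega),
    Finset.Icc_subset_Icc_left (Nat.one_le_pow _ _ hN1), ?_, ?_, ?_, ?_⟩
  · push_cast
    rw [mul_pow]
    gcongr
  · push_cast; exact hNm1
  · push_cast; exact hNm2
  intro ι S h z hz M hM hMb
  -- the area mean
  have hV : 0 ≤ (((Real.log T) ^ 3)⁻¹) ^ m := by positivity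
  have harea := area S (fun _ => (1 : ℝ)) (fun _ _ => zero_le_one) h
    (fun s => LSeries (fun n => (b ^ m) n) s)
    (ls_diff (fun n hn => (pow_support hbs' m n hn).2)) (V := (((Real.log T) ^ 3)⁻¹) ^ m)
    (M := A ^ 2 * M) (r := δ) hV hδ hδ1 z
    (by
      intro i hi
      obtain ⟨g1, g2, g3, g4⟩ := hz i hi
      refine ⟨g1, g2, g3, ?_⟩
      rw [ls_pow hbs', norm_pow]
      exact pow_le_pow_left₀ (by positivity) g4 m)
    (by
      intro u hu _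
      obtain ⟨a', ha1, ha2⟩ := eval_pow (m := m) hN1 hbs' hbn hA0 hAb hu
      have e5 : ∑ i ∈ S, 1 * ‖LSeries (fun n => (b ^ m) n) (h i * I + u)‖ ^ 2 =
          A ^ 2 * ∑ i ∈ S, ‖DD (Finset.Icc (N ^ m) ((2 * N) ^ m)) a' (-(h i))‖ ^ 2 := by
        rw [Finset.mul_sum]
        refine Finset.sum_congr rfl fun i _ => ?_
        rw [ha2, one_mul, mul_pow]
      rw [e5]
      exact mul_le_mul_of_nonneg_left (hMb a' ha1) (by positivity))
  rw [Finset.sum_const, nsmul_eq_mul, mul_one] at harea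
  -- remove the logarithms
  have hVb : 1 ≤ T ^ (κ / 2) * ((((Real.log T) ^ 3)⁻¹) ^ m) ^ 2 := by
    have h1 : ((((Real.log T) ^ 3)⁻¹) ^ m) ^ 2 = (Real.log T ^ (6 * m))⁻¹ := by
      rw [inv_pow, inv_pow, ← pow_mul, ← pow_mul]
      congr 2
      ring
    have h2 : Real.log T ^ (6 * m) ≤ T ^ (κ / 2) := by
      refine le_trans (pow_le_pow_right₀ e2 (by omega : 6 * m ≤ 6 * m0)) ?_
      linarith
    rw [h1, ← div_eq_mul_inv, one_le_div (by positivity)]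
    exact h2
  have hcard0 : (0 : ℝ) ≤ S.card := by positivity
  calc (S.card : ℝ) = S.card * 1 := (mul_one _).symm
    _ ≤ S.card * (T ^ (κ / 2) * ((((Real.log T) ^ 3)⁻¹) ^ m) ^ 2) := by gcongr
    _ = T ^ (κ / 2) * (((((Real.log T) ^ 3)⁻¹) ^ m) ^ 2 * S.card) := by ring
    _ ≤ T ^ (κ / 2) * (64 / δ ^ 2 * (A ^ 2 * M)) := by gcongr
    _ = 64 / δ ^ 2 * (Cd ^ (2 * m0) * (2 ^ m0 * 64)) ^ 2 * (T ^ (κ / 2) * (T ^ (κ / 4)) ^ 2) *
        ((((N ^ m : ℕ)) : ℝ) ^ (-(σ - 2 * δ))) ^ 2 * M := by rw [hA]; ring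
    _ = _ := by
        have g1 : T ^ (κ / 2) * (T ^ (κ / 4)) ^ 2 = T ^ κ := by
          rw [← Real.rpow_natCast, ← Real.rpow_mul hTpos.le, ← Real.rpow_add hTpos]
          congr 1; push_cast; ring
        have g2 : ((((N ^ m : ℕ)) : ℝ) ^ (-(σ - 2 * δ))) ^ 2 =
            (((N ^ m : ℕ)) : ℝ) ^ (-2 * (σ - 2 * δ)) := by
          rw [← Real.rpow_natCast, ← Real.rpow_mul hNm0.le]
          congr 1; push_cast; ring
        rw [g1, g2]

end Pool.Agent.X108.ZE
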