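import Pool.Agent.TH321.GF.AQ
import Pool.Agent.Y766.ZF

/-!
# Zeta and its partial sums in the strip
-/

set_option autoImplicit false

namespace Pool.Agent.X108.ZE

open MeasureTheory Metric Set Complex Filter Asymptotics
open Pool.Agent.Y766 (Zf Zf_eq Zf_diff Zf_bound hl zeta_crude)
open Pool.Agent.TH612.GS (z zN PN)

lemma exp_sq_norm (w s : ℂ) : ‖cexp ((w - s) ^ 2)‖ =
    Real.exp ((w.re - s.re) ^ 2) * Real.exp (-(w.im - s.im) ^ 2) := by
  rw [Complex.norm_exp, ← Real.exp_add]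
  congr 1
  rw [pow_two, Complex.mul_re, Complex.sub_re, Complex.sub_im]
  ring

lemma exp94 {a b : ℝ} (ha : 1 / 2 ≤ a) (ha' : a ≤ 2) (hb : 1 / 2 ≤ b) (hb' : b ≤ 2) :
    Real.exp ((a - b) ^ 2) ≤ 10 := by
  have h1 : (a - b) ^ 2 ≤ 9 / 4 := by
    have : |a - b| ≤ 3 / 2 := by rw [abs_le]; constructor <;> linarith
    rw [← sq_abs]
    nlinarith [abs_nonneg (a - b)]
  have h2 : Real.exp (9 / 4 : ℝ) ≤ 10 := by
    have h3 : Real.exp (9 / 4 : ℝ) = Real.exp 1 ^ (9 / 4 : ℝ) := by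
      rw [← Real.exp_mul]; norm_num
    have h4 := Real.exp_one_lt_d9
    have h5 : (Real.exp (9 / 4 : ℝ)) ^ 4 ≤ (10 : ℝ) ^ 4 := by
      rw [← Real.exp_nat_mul]
      have e : ((4 : ℕ) : ℝ) * (9 / 4) = ((9 : ℕ) : ℝ) * 1 := by norm_num
      rw [e, Real.exp_nat_mul]
      calc Real.exp 1 ^ 9 ≤ (2.7182818286 : ℝ) ^ 9 := pow_le_pow_left₀ (Real.exp_pos _).le h4.le 9
        _ ≤ 10 ^ 4 := by norm_num
    exact (pow_le_pow_iff_left₀ (Real.exp_pos _).le (by norm_num) (by norm_num)).1 h5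
  exact (Real.exp_le_exp.2 h1).trans h2

lemma one_add_sq_le (x : ℝ) (hx : 0 ≤ x) : (1 + x) ^ 2 ≤ 2 * Real.exp x := by
  have := Real.quadratic_le_exp_of_nonneg hx
  nlinarith

lemma zN_bound (X : ℕ) (w : ℂ) (hw : 0 ≤ w.re) : ‖zN X w‖ ≤ X := by
  unfold zN
  calc ‖∑ n ∈ Finset.Icc 1 X, (n : ℂ) ^ (-w)‖ ≤ ∑ n ∈ Finset.Icc 1 X, (1 : ℝ) := by
        refine norm_sum_le_of_le _ fun n hn => ?_
        rw [Finset.mem_Icc] at hn
        rw [Complex.norm_natCast_cpow_of_pos (by omega)]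
        apply Real.rpow_le_one_of_one_le_of_nonpos
        · exact_mod_cast hn.1
        · simpa using hw
    _ = X := by simp

lemma inv_sq_sum (X : ℕ) : ∑ n ∈ Finset.Icc 1 X, 1 / (n : ℝ) ^ 2 ≤ 2 :=
  Pool.Agent.TH321.GF.AQ_sq' X

lemma zN_two (X : ℕ) (w : ℂ) (hw : w.re = 2) : ‖zN X w‖ ≤ 2 := by
  unfold zN
  refine le_trans (norm_sum_le_of_le _ fun n hn => ?_) (inv_sq_sum X)
  rw [Finset.mem_Icc] at hn
  have hn0 : (0 : ℝ) < n := by exact_mod_cast hn.1
  rw [Complex.norm_natCast_cpow_of_pos (by omega), Complex.neg_re, hw, Real.rpow_neg hn0.le,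
    one_div, Real.rpow_two]

lemma zeta_two (w : ℂ) (hw : w.re = 2) : ‖riemannZeta w‖ ≤ 2 := by
  have h1 : 1 < w.re := by rw [hw]; norm_num
  rw [zeta_eq_tsum_one_div_nat_cpow h1]
  have hs : Summable (fun n : ℕ => 1 / (n : ℝ) ^ 2) := Real.summable_one_div_nat_pow.2 one_lt_two
  have hle : ∀ n : ℕ, ‖1 / (n : ℂ) ^ w‖ ≤ 1 / (n : ℝ) ^ 2 := by
    intro n
    rcases Nat.eq_zero_or_pos n with rfl | hn
    · have : w ≠ 0 := by rintro rfl; simp at hw
      simp [Complex.zero_cpow this]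
    · rw [norm_div, norm_one, Complex.norm_natCast_cpow_of_pos hn, hw, Real.rpow_two]
  refine (tsum_of_norm_bounded hs.hasSum hle).trans ?_
  refine le_of_tendsto_of_tendsto' hs.hasSum.tendsto_sum_nat tendsto_const_nhds fun N => ?_
  rcases Nat.eq_zero_or_pos N with rfl | hN
  · simp
  · rw [Finset.range_eq_Ico, Finset.sum_eq_sum_Ico_succ_bot hN]
    have e : Finset.Ico (0 + 1) N = Finset.Icc 1 (N - 1) := by
      ext n; simp only [Finset.mem_Ico, Finset.mem_Icc]; omega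
    rw [e]
    have := inv_sq_sum (N - 1)
    simpa using this

/-- zeta and its partial sums -/
theorem zeta_partial {s : ℂ} (h1 : 1 / 2 ≤ s.re) (h2 : s.re ≤ 2) (h3 : 1 ≤ s.im) {X : ℕ}
    (hX1 : 4 * s.im ≤ X) (hX2 : (X : ℝ) ≤ 16 * s.im) : ‖riemannZeta s - zN X s‖ ≤ 4000 := by
  obtain ⟨t, ht⟩ : ∃ t : ℝ, t = s.im := ⟨_, rfl⟩
  rw [← ht] at h3 hX1 hX2
  have ht0 : 0 < t := by linarith
  have hXr : (4 : ℝ) ≤ X := by linarith
  have hX0 : (0 : ℝ) < X := by linarith
  have hXn : 1 ≤ X := by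
    have : (0 : ℝ) < X := hX0
    exact_mod_cast this
  set F : ℂ → ℂ := fun w => (Zf w - (w - 1) * zN X w) * cexp ((w - s) ^ 2) with hF
  have hzN : Differentiable ℂ (zN X) := by
    unfold zN
    intro w
    apply DifferentiableAt.fun_sum
    intro n hn
    rw [Finset.mem_Icc] at hn
    have hn0 : (n : ℂ) ≠ 0 := by
      have : n ≠ 0 := by omega
      exact_mod_cast this
    exact (differentiableAt_id.neg).const_cpow (Or.inl hn0)
  have hFd : Differentiable ℂ F := by
    have := Zf_diff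
    rw [hF]
    fun_prop
  have hFn : ∀ w : ℂ, ‖F w‖ = ‖Zf w - (w - 1) * zN X w‖ *
      (Real.exp ((w.re - s.re) ^ 2) * Real.exp (-(w.im - t) ^ 2)) := by
    intro w
    rw [hF]
    simp only
    rw [norm_mul, exp_sq_norm, ht]
  -- growth
  have hgrow : ∀ w : ℂ, 1 / 2 ≤ w.re → w.re ≤ 2 → ‖F w‖ ≤
      (200 * (3 + X)) * Real.exp (1 * Real.exp (1 * |w.im|)) := by
    intro w hw1 hw2
    have hwn : ‖w‖ ≤ 2 + |w.im| := by
      refine (Complex.norm_le_abs_re_add_abs_im w).trans ?_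
      rw [abs_of_nonneg (by linarith : 0 ≤ w.re)]
      linarith
    have hv := abs_nonneg w.im
    obtain ⟨y, hy⟩ : ∃ y : ℝ, y = |w.im| := ⟨_, rfl⟩
    rw [← hy] at hwn hv ⊢
    have e1 := Zf_bound hw1
    have e2 := zN_bound X w (by linarith)
    have e3 : ‖w - 1‖ ≤ 3 + y := by
      refine (norm_sub_le _ _).trans ?_
      rw [norm_one]; linarith
    have e4 : ‖Zf w - (w - 1) * zN X w‖ ≤ (10 * (3 + X)) * (1 + y) ^ 2 := by
      refine (norm_sub_le _ _).trans ?_
      rw [norm_mul]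
      have g1 : ‖Zf w‖ ≤ 1 + (3 + y) * (5 + 2 * y) := by
        refine e1.trans ?_
        have : 0 ≤ ‖w‖ := norm_nonneg _
        have : (‖w‖ + 1) * (1 + 2 * ‖w‖) ≤ (3 + y) * (5 + 2 * y) := by
          apply mul_le_mul <;> linarith
        linarith
      have g2 : ‖w - 1‖ * ‖zN X w‖ ≤ (3 + y) * X := by gcongr
      nlinarith [mul_nonneg hv hX0.le, mul_nonneg (mul_nonneg hv hv) hX0.le]
    rw [hFn]
    have e5 := exp94 hw1 hw2 h1 h2
    have e6 : Real.exp (-(w.im - t) ^ 2) ≤ 1 := by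
      apply Real.exp_le_one_iff.2
      have := sq_nonneg (w.im - t)
      linarith
    have e7 := one_add_sq_le y hv
    have e8 : Real.exp y ≤ Real.exp (1 * Real.exp (1 * y)) := by
      apply Real.exp_le_exp.2
      have := Real.add_one_le_exp y
      rw [one_mul, one_mul]
      linarith
    have e9 : 0 < Real.exp (-(w.im - t) ^ 2) := Real.exp_pos _
    calc ‖Zf w - (w - 1) * zN X w‖ * (Real.exp ((w.re - s.re) ^ 2) * Real.exp (-(w.im - t) ^ 2))
        ≤ ((10 * (3 + X)) * (1 + y) ^ 2) * (10 * 1) := by gcongr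
      _ ≤ ((10 * (3 + X)) * (2 * Real.exp y)) * (10 * 1) := by gcongr
      _ = (200 * (3 + X)) * Real.exp y := by ring
      _ ≤ _ := by gcongr
  have hE : ∀ y : ℝ, (1 + y) ^ 2 * Real.exp (-y ^ 2) ≤ 2 := by
    intro y
    have g1 : (1 + y) ^ 2 ≤ 2 * Real.exp (y ^ 2) := by
      have := Real.add_one_le_exp (y ^ 2)
      nlinarith [sq_nonneg (1 - y)]
    calc (1 + y) ^ 2 * Real.exp (-y ^ 2) ≤ 2 * Real.exp (y ^ 2) * Real.exp (-y ^ 2) := by gcongr
      _ = 2 := by rw [mul_assoc, ← Real.exp_add, add_neg_cancel, Real.exp_zero, mul_one]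
  have hle_a : ∀ w : ℂ, w.re = 1 / 2 → ‖F w‖ ≤ 4000 * t := by
    intro w hw
    have hw1 : w ≠ 1 := by rintro rfl; norm_num at hw
    have e0 : Zf w - (w - 1) * zN X w = (w - 1) * (riemannZeta w - zN X w) := by
      rw [Zf_eq hw1]; ring
    have e5 := exp94 (a := w.re) (by rw [hw]) (by rw [hw]; norm_num) h1 h2
    obtain ⟨v, hv⟩ : ∃ v : ℝ, v = w.im := ⟨_, rfl⟩
    have hwv : w = 1 / 2 + I * (v : ℂ) := by
      apply Complex.ext <;> simp [hw, hv]
    have hwv2 : w = hl v := by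
      rw [hwv]; unfold hl; push_cast; ring
    have e1 : ‖w - 1‖ ≤ 1 + |v| := by
      refine (Complex.norm_le_abs_re_add_abs_im _).trans ?_
      rw [Complex.sub_re, Complex.sub_im, hw, ← hv, Complex.one_re, Complex.one_im, sub_zero]
      have : |(1 / 2 : ℝ) - 1| ≤ 1 := by rw [abs_le]; constructor <;> norm_num
      linarith
    rw [hFn, e0, norm_mul, ← hv]
    by_cases hvX : 0 < v ∧ v ≤ X
    · obtain ⟨hv0, hvX⟩ := hvX
      have e2 := Pool.Agent.TH321.GF.AQ_pw v X hXn hv0 hvX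
      have e3 : z v - PN X v = riemannZeta w - zN X w := by
        unfold z PN; rw [← hwv]
      rw [e3] at e2
      rw [abs_of_pos hv0] at e1
      have hsq : 0 < Real.sqrt X := Real.sqrt_pos.2 hX0
      have hsq2 : Real.sqrt X * Real.sqrt X = X := Real.mul_self_sqrt hX0.le
      have hsq4 : Real.sqrt X ≤ 4 * t := by
        apply Real.sqrt_le_iff.2
        constructor
        · positivity
        · nlinarith
      have e4 : ‖w - 1‖ * ‖riemannZeta w - zN X w‖ ≤ 6 * Real.sqrt X := by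
        calc ‖w - 1‖ * ‖riemannZeta w - zN X w‖ ≤
              (1 + v) * (3 * Real.sqrt X / (1 + v) + 3 / (2 * Real.sqrt X)) := by gcongr
          _ = 3 * Real.sqrt X + (3 * (1 + v)) / (2 * Real.sqrt X) := by field_simp
          _ ≤ 3 * Real.sqrt X + 3 * Real.sqrt X := by
              have : (3 * (1 + v)) / (2 * Real.sqrt X) ≤ 3 * Real.sqrt X := by
                rw [div_le_iff₀ (by positivity)]
                nlinarith
              linarith
          _ = _ := by ring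
      have e6 : Real.exp (-(v - t) ^ 2) ≤ 1 := by
        apply Real.exp_le_one_iff.2
        have := sq_nonneg (v - t)
        linarith
      calc ‖w - 1‖ * ‖riemannZeta w - zN X w‖ *
            (Real.exp ((w.re - s.re) ^ 2) * Real.exp (-(v - t) ^ 2)) ≤
            (6 * Real.sqrt X) * (10 * 1) := by gcongr
        _ ≤ (6 * (4 * t)) * (10 * 1) := by gcongr
        _ ≤ _ := by linarith
    · obtain ⟨y, hy⟩ : ∃ y : ℝ, y = |v - t| := ⟨_, rfl⟩
      have hy1 : t ≤ y ∧ |v| ≤ 4 / 3 * y := by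
        rcases le_or_gt v 0 with h | h
        · rw [hy, abs_of_nonpos (by linarith : v - t ≤ 0), abs_of_nonpos h]
          constructor <;> linarith
        · have h' : (X : ℝ) < v := by
            by_contra hcon
            exact hvX ⟨h, not_lt.1 hcon⟩
          rw [hy, abs_of_nonneg (by linarith : 0 ≤ v - t), abs_of_pos h]
          constructor <;> linarith
      obtain ⟨hy1, hy2⟩ := hy1
      have hy0 : 0 ≤ y := by linarith
      have e2 : ‖riemannZeta w‖ ≤ 4 * (1 + |v|) := by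
        have := zeta_crude v
        rw [← hwv2] at this
        have h9 : ‖riemannZeta w‖ ^ 2 ≤ (4 * (1 + |v|)) ^ 2 := by
          calc ‖riemannZeta w‖ ^ 2 ≤ 16 * (1 + |v|) ^ 2 := this
            _ = _ := by ring
        exact (pow_le_pow_iff_left₀ (norm_nonneg _) (by positivity) (by norm_num)).1 h9
      have e3 := zN_bound X w (by rw [hw]; norm_num)
      have e4 : ‖w - 1‖ * ‖riemannZeta w - zN X w‖ ≤ 30 * (1 + y) ^ 2 := by
        have g1 : ‖riemannZeta w - zN X w‖ ≤ 4 + 22 * y := by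
          refine (norm_sub_le _ _).trans ?_
          linarith
        have g2 : ‖w - 1‖ ≤ 1 + 4 / 3 * y := by linarith
        calc ‖w - 1‖ * ‖riemannZeta w - zN X w‖ ≤ (1 + 4 / 3 * y) * (4 + 22 * y) := by gcongr
          _ ≤ _ := by nlinarith
      have e6 : Real.exp (-(v - t) ^ 2) = Real.exp (-y ^ 2) := by rw [hy, sq_abs]
      rw [e6]
      have e7 := hE y
      have e8 : 0 < Real.exp (-y ^ 2) := Real.exp_pos _
      calc ‖w - 1‖ * ‖riemannZeta w - zN X w‖ *
            (Real.exp ((w.re - s.re) ^ 2) * Real.exp (-y ^ 2)) ≤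
            (30 * (1 + y) ^ 2) * (10 * Real.exp (-y ^ 2)) := by gcongr
        _ = 300 * ((1 + y) ^ 2 * Real.exp (-y ^ 2)) := by ring
        _ ≤ 300 * 2 := by gcongr
        _ ≤ _ := by linarith
  have hle_b : ∀ w : ℂ, w.re = 2 → ‖F w‖ ≤ 4000 * t := by
    intro w hw
    have hw1 : w ≠ 1 := by rintro rfl; norm_num at hw
    have e0 : Zf w - (w - 1) * zN X w = (w - 1) * (riemannZeta w - zN X w) := by
      rw [Zf_eq hw1]; ring
    have e5 := exp94 (a := w.re) (by rw [hw]; norm_num) (by rw [hw]) h1 h2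
    obtain ⟨v, hv⟩ : ∃ v : ℝ, v = w.im := ⟨_, rfl⟩
    have e1 : ‖w - 1‖ ≤ 1 + |v| := by
      refine (Complex.norm_le_abs_re_add_abs_im _).trans ?_
      rw [Complex.sub_re, Complex.sub_im, hw, ← hv, Complex.one_re, Complex.one_im, sub_zero]
      norm_num
    rw [hFn, e0, norm_mul, ← hv]
    obtain ⟨y, hy⟩ : ∃ y : ℝ, y = |v - t| := ⟨_, rfl⟩
    have hy0 : 0 ≤ y := by rw [hy]; exact abs_nonneg _
    have hvy : |v| ≤ t + y := by
      have : |v| ≤ |t| + |v - t| := by
        have h := abs_add_le t (v - t)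
        rw [show t + (v - t) = v by ring] at h
        exact h
      rw [abs_of_pos ht0, ← hy] at this
      exact this
    have e2 : ‖riemannZeta w - zN X w‖ ≤ 4 := by
      refine (norm_sub_le _ _).trans ?_
      have := zeta_two w hw
      have := zN_two X w hw
      linarith
    have e6 : Real.exp (-(v - t) ^ 2) = Real.exp (-y ^ 2) := by rw [hy, sq_abs]
    rw [e6]
    have e7 := hE y
    have e8 : 0 < Real.exp (-y ^ 2) := Real.exp_pos _
    have e9 : (1 + (t + y)) * Real.exp (-y ^ 2) ≤ 2 * (2 * t) := by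
      have g1 : 1 + (t + y) ≤ 2 * t * (1 + y) ^ 2 := by nlinarith [mul_nonneg ht0.le hy0]
      calc (1 + (t + y)) * Real.exp (-y ^ 2) ≤ (2 * t * (1 + y) ^ 2) * Real.exp (-y ^ 2) := by gcongr
        _ = 2 * t * ((1 + y) ^ 2 * Real.exp (-y ^ 2)) := by ring
        _ ≤ 2 * t * 2 := by gcongr
        _ = _ := by ring
    calc ‖w - 1‖ * ‖riemannZeta w - zN X w‖ *
          (Real.exp ((w.re - s.re) ^ 2) * Real.exp (-y ^ 2)) ≤
          ((1 + (t + y)) * 4) * (10 * Real.exp (-y ^ 2)) := by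
            gcongr
            linarith
      _ = 40 * ((1 + (t + y)) * Real.exp (-y ^ 2)) := by ring
      _ ≤ 40 * (2 * (2 * t)) := by gcongr
      _ ≤ _ := by linarith
  have hmain := PhragmenLindelof.vertical_strip (f := F) (a := 1 / 2) (b := 2) (C := 4000 * t)
    hFd.diffContOnCl ⟨1, by
      rw [lt_div_iff₀ (by norm_num)]
      have := Real.pi_gt_three
      linarith, 1, by
      refine IsBigO.of_bound (200 * (3 + X)) ?_
      refine eventually_inf_principal.2 (Eventually.of_forall fun w hw => ?_)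
      rw [Real.norm_of_nonneg (Real.exp_pos _).le]
      exact hgrow w hw.1.le hw.2.le⟩ hle_a hle_b h1 h2
  have hs1 : s ≠ 1 := by
    rintro rfl
    rw [ht] at h3
    norm_num at h3
  have hFs : F s = (s - 1) * (riemannZeta s - zN X s) := by
    rw [hF]
    simp only
    rw [Zf_eq hs1, sub_self, zero_pow (by norm_num), Complex.exp_zero]
    ring
  rw [hFs, norm_mul] at hmain
  have h5 : t ≤ ‖s - 1‖ := by
    have := Complex.abs_im_le_norm (s - 1)
    rw [Complex.sub_im, Complex.one_im, sub_zero, ← ht, abs_of_pos ht0] at this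
    exact this
  have h6 : t * ‖riemannZeta s - zN X s‖ ≤ 4000 * t :=
    (mul_le_mul_of_nonneg_right h5 (norm_nonneg _)).trans hmain
  nlinarith

end Pool.Agent.X108.ZE
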