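import Pool.Agent.H31R2.DH.CountB
import Pool.Agent.X108.ZE.ZT

/-!
# Detection of zeros by Dirichlet polynomials
-/

set_option autoImplicit false

namespace Pool.Agent.X108.ZE

open Complex Metric MeasureTheory Set Filter Topology DH31
open Pool.Agent.TH612.GS (zN)

/-- the blocks of zeta on the line `a` -/
noncomputable def zb (a : ℝ) (j : ℕ) : ArithmeticFunction ℂ :=
  ⟨fun n => if 2 ^ j ≤ n ∧ n < 2 ^ (j + 1) then (n : ℂ) ^ (-(a : ℂ)) else 0, by
    rw [if_neg]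
    rintro ⟨h, -⟩
    have := Nat.one_le_two_pow (n := j)
    omega⟩

lemma zb_apply (a : ℝ) (j n : ℕ) :
    zb a j n = if 2 ^ j ≤ n ∧ n < 2 ^ (j + 1) then (n : ℂ) ^ (-(a : ℂ)) else 0 := rfl

lemma zb_support {a : ℝ} {j : ℕ} : ∀ n, zb a j n ≠ 0 → 2 ^ j ≤ n ∧ n ≤ 2 ^ (j + 1) := by
  intro n hn
  rw [zb_apply] at hn
  by_cases h : 2 ^ j ≤ n ∧ n < 2 ^ (j + 1)
  · exact ⟨h.1, h.2.le⟩
  · rw [if_neg h] at hn; exact absurd rfl hn

lemma zb_norm {a : ℝ} {j : ℕ} : ∀ n : ℕ, 1 ≤ n →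
    ‖zb a j n‖ ≤ (n.divisors.card : ℝ) * (n : ℝ) ^ (-a) := by
  intro n hn
  have h0 : 0 ≤ (n : ℝ) ^ (-a) := Real.rpow_nonneg (Nat.cast_nonneg n) _
  have h1 : (1 : ℝ) ≤ n.divisors.card := by
    have : 0 < n.divisors.card := Finset.card_pos.2 ⟨1, Nat.one_mem_divisors.2 (by omega)⟩
    exact_mod_cast this
  rw [zb_apply]
  split_ifs
  · rw [Complex.norm_natCast_cpow_of_pos (by omega)]
    simp only [neg_re, ofReal_re]
    nlinarith
  · rw [norm_zero]; positivity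

lemma ls_eq {b : ArithmeticFunction ℂ} {Y : ℕ} (hb : ∀ n, b n ≠ 0 → n ≤ Y) (s : ℂ) :
    LSeries (fun n => b n) s = ∑ n ∈ Finset.Icc 1 Y, b n * (n : ℂ) ^ (-s) := by
  unfold LSeries
  rw [tsum_eq_sum (s := Finset.Icc 1 Y) fun n hn => term_af_zero hb hn _]
  refine Finset.sum_congr rfl fun n hn => ?_
  rw [Finset.mem_Icc] at hn
  rw [LSeries.term_of_ne_zero (by omega), Complex.cpow_neg]
  rfl

lemma zb_LSeries (a : ℝ) (j : ℕ) (s : ℂ) : LSeries (fun n => zb a j n) s =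
    ∑ n ∈ Finset.Ico (2 ^ j : ℕ) (2 ^ (j + 1) : ℕ), (n : ℂ) ^ (-((a : ℂ) + s)) := by
  rw [ls_eq (Y := 2 ^ (j + 1)) (fun n hn => (zb_support n hn).2)]
  have hj := Nat.one_le_two_pow (n := j)
  symm
  refine Finset.sum_subset_zero_on_sdiff ?_ ?_ ?_
  · intro n hn
    rw [Finset.mem_Ico] at hn
    rw [Finset.mem_Icc]
    omega
  · intro n hn
    rw [Finset.mem_sdiff, Finset.mem_Icc, Finset.mem_Ico] at hn
    rw [zb_apply, if_neg hn.2, zero_mul]
  · intro n hn
    rw [Finset.mem_Ico] at hn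
    have hn0 : (n : ℂ) ≠ 0 := by
      have : n ≠ 0 := by omega
      exact_mod_cast this
    rw [zb_apply, if_pos hn, neg_add, Complex.cpow_add _ _ hn0]

lemma zN_blocks (a : ℝ) (L : ℕ) (z : ℂ) : zN (2 ^ L - 1) z =
    ∑ j ∈ Finset.range L, LSeries (fun n => zb a j n) (z - a) := by
  have e : ∀ j, LSeries (fun n => zb a j n) (z - a) =
      ∑ n ∈ Finset.Ico (2 ^ j : ℕ) (2 ^ (j + 1) : ℕ), (n : ℂ) ^ (-z) := by
    intro j
    rw [zb_LSeries]
    congr 1
    funext n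
    congr 2
    ring
  unfold zN
  have e1 : Finset.Icc 1 (2 ^ L - 1) = Finset.Ico 1 (2 ^ L) := by
    have := Nat.one_le_two_pow (n := L)
    ext n; rw [Finset.mem_Icc, Finset.mem_Ico]; omega
  rw [e1]
  clear e1
  induction L with
  | zero => simp
  | succ L ih =>
    rw [Finset.sum_range_succ, ← ih, e L]
    rw [Finset.sum_Ico_consecutive _ Nat.one_le_two_pow (Nat.pow_le_pow_right (by norm_num) (Nat.le_succ L))]

lemma zb_size {a : ℝ} (ha : 0 ≤ a) (j : ℕ) {s : ℂ} (hs : 0 ≤ s.re) :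
    ‖LSeries (fun n => zb a j n) s‖ ≤ ((2 ^ j : ℕ) : ℝ) := by
  rw [zb_LSeries]
  have hj := Nat.one_le_two_pow (n := j)
  calc ‖∑ n ∈ Finset.Ico (2 ^ j : ℕ) (2 ^ (j + 1) : ℕ), (n : ℂ) ^ (-((a : ℂ) + s))‖ ≤
        ∑ n ∈ Finset.Ico (2 ^ j : ℕ) (2 ^ (j + 1) : ℕ), (1 : ℝ) := by
        refine norm_sum_le_of_le _ fun n hn => ?_
        rw [Finset.mem_Ico] at hn
        rw [Complex.norm_natCast_cpow_of_pos (by omega)]
        apply Real.rpow_le_one_of_one_le_of_nonpos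
        · exact_mod_cast (by omega : 1 ≤ n)
        · simp only [neg_re, add_re, ofReal_re]; linarith
    _ = ((2 ^ j : ℕ) : ℝ) := by
        rw [Finset.sum_const, Nat.card_Ico, nsmul_eq_mul, mul_one]
        congr 1
        rw [pow_succ]; omega

theorem detection {δ κ : ℝ} (hδ : 0 < δ) (hδ1 : δ ≤ 1 / 12) (hκ : 0 < κ) (hκ1 : κ ≤ 1) :
    ∃ c : ℝ, 0 < c ∧ ∃ T0 : ℝ, 1 ≤ T0 ∧ ∀ T : ℝ, T0 ≤ T → ∀ σ : ℝ, 1 / 2 + δ ≤ σ → σ ≤ 1 →
    ∃ (J : Finset (ℕ × ℕ ⊕ ℕ)) (B : ℕ × ℕ ⊕ ℕ → ArithmeticFunction ℂ) (e : ℕ × ℕ ⊕ ℕ → ℕ),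
      (J.card : ℝ) ≤ T ^ κ ∧
      (∀ i ∈ J, (∀ n, B i n ≠ 0 → 2 ^ e i ≤ n ∧ n ≤ 2 ^ (e i + 1)) ∧
        (∀ n : ℕ, 1 ≤ n → ‖B i n‖ ≤ (n.divisors.card : ℝ) * (n : ℝ) ^ (-(σ - δ))) ∧
        T ^ c ≤ ((2 ^ e i : ℕ) : ℝ) ∧ ((2 ^ e i : ℕ) : ℝ) ≤ 64 * T) ∧
      ∀ ρ : ℂ, riemannZeta ρ = 0 → 3 ≤ ρ.im → ρ.im ≤ 2 * T → σ ≤ ρ.re → ρ.re ≤ 1 →
        ∃ i ∈ J, ∃ s : ℂ, 0 ≤ s.re ∧ s.re ≤ 3 ∧ |s.im - ρ.im| ≤ 1 ∧
          ((Real.log T) ^ 3)⁻¹ ≤ ‖LSeries (fun n => B i n) s‖ := by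
  classical
  obtain ⟨q, hdet0⟩ := detect hδ hδ1
  set η : ℝ := κ * δ / (12 * (q + 1)) with hηdef
  have hη : 0 < η := by positivity
  have hηκ : q * (6 * η / δ) ≤ κ / 2 := by
    have h1 : 6 * η / δ = κ / (2 * (q + 1)) := by
      rw [hηdef]
      field_simp
      norm_num
    rw [h1, mul_div_assoc', div_le_div_iff₀ (by positivity) (by norm_num)]
    have : (0 : ℝ) ≤ q := by positivity
    nlinarith
  obtain ⟨T1, hT1, hdet⟩ := hdet0 η hη
  have ev1 := ev_log ((q + 1) * (6 * η / δ + 2) ^ 2 + 10) κ 2 hκ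
  have ev2 : ∀ᶠ T : ℝ in atTop, 2 * (q + 1) * (6 * η / δ + 2) ^ 2 ≤ Real.log T :=
    Real.tendsto_log_atTop.eventually_ge_atTop _
  have ev3 : ∀ᶠ T : ℝ in atTop, Real.exp (2 * q) ≤ T ^ (κ / 2) :=
    (tendsto_rpow_atTop (show 0 < κ / 2 by positivity)).eventually_ge_atTop _
  have ev4 : ∀ᶠ T : ℝ in atTop, 2 ≤ T ^ (η / 2) :=
    (tendsto_rpow_atTop (show 0 < η / 2 by positivity)).eventually_ge_atTop _
  have ev5 := ev_log 4011 (η / 2) 1 (by positivity)
  have ev6 : ∀ᶠ T : ℝ in atTop, 8 ≤ Real.log T := Real.tendsto_log_atTop.eventually_ge_atTop _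
  obtain ⟨T2, hT2⟩ := Filter.eventually_atTop.1 (((ev1.and ev2).and (ev3.and ev4)).and
    ((ev5.and ev6).and (eventually_ge_atTop (1 : ℝ))))
  refine ⟨η / 2, by positivity, max T1 T2, hT1.trans (le_max_left _ _), ?_⟩
  intro T hT σ hσ1 hσ2
  obtain ⟨⟨⟨e1, e2⟩, ⟨e3, e4⟩⟩, ⟨⟨e5, e6⟩, e7⟩⟩ := hT2 T ((le_max_right _ _).trans hT)
  have hTT1 : T1 ≤ T := (le_max_left _ _).trans hT
  have hTpos : 0 < T := by linarith
  set K := KK δ η T with hK
  have hK1 : 1 ≤ K := by rw [hK]; unfold KK; omega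
  have hK1r : (1 : ℝ) ≤ K := by exact_mod_cast hK1
  have hKle : (K : ℝ) ≤ (6 * η / δ + 2) * Real.log T := KK_le hδ hη (by linarith)
  set X := ⌊T ^ η⌋₊ with hX
  set Z := 2 ^ (q * K) with hZ
  have hZJ : Z < 2 ^ ((q + 1) * K) := by
    rw [hZ]
    exact Nat.pow_lt_pow_right (by norm_num) (by nlinarith)
  have hZsmall : (Z : ℝ) ≤ T ^ κ := by
    have h1 : (Z : ℝ) ≤ Real.exp (q * K) := by
      rw [hZ]
      push_cast
      have h2 : (2 : ℝ) ≤ Real.exp 1 := by
        have h3 : (2.7182818283 : ℝ) ≤ Real.exp 1 := Real.exp_one_gt_d9.le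
        linarith
      calc (2 : ℝ) ^ (q * K) ≤ (Real.exp 1) ^ (q * K) := by gcongr
        _ = Real.exp (q * K) := by rw [← Real.exp_nat_mul]; push_cast; ring_nf
    have h5 : (K : ℝ) ≤ 6 * η / δ * Real.log T + 2 := by
      have h1 := (Nat.ceil_lt_add_one (show 0 ≤ 6 * η / δ * Real.log T by positivity)).le
      rw [hK]; unfold KK; push_cast; linarith
    have h6 : q * (K : ℝ) ≤ κ / 2 * Real.log T + 2 * q := by
      have h7 : q * (6 * η / δ) * Real.log T ≤ κ / 2 * Real.log T := by gcongr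
      have h8 : q * (K : ℝ) ≤ q * (6 * η / δ * Real.log T + 2) := by gcongr
      linarith
    calc (Z : ℝ) ≤ Real.exp (q * K) := h1
      _ ≤ Real.exp (κ / 2 * Real.log T + 2 * q) := Real.exp_le_exp.2 h6
      _ = T ^ (κ / 2) * Real.exp (2 * q) := by
        rw [Real.exp_add, Real.rpow_def_of_pos hTpos, mul_comm (κ / 2)]
      _ ≤ T ^ (κ / 2) * T ^ (κ / 2) := by gcongr
      _ = T ^ κ := by rw [← Real.rpow_add hTpos]; congr 1; ring
  set L : ℕ := Nat.log 2 ⌊64 * T⌋₊ + 1 with hL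
  have hfl : ⌊64 * T⌋₊ ≠ 0 := by
    have : 0 < ⌊64 * T⌋₊ := Nat.floor_pos.2 (by linarith)
    omega
  have hLle : (L : ℝ) ≤ 10 * Real.log T := by
    have h1 := Nat.pow_log_le_self 2 hfl
    have h2 : ((2 : ℝ)) ^ (Nat.log 2 ⌊64 * T⌋₊) ≤ 64 * T := by
      have h3 : (((2 ^ Nat.log 2 ⌊64 * T⌋₊ : ℕ)) : ℝ) ≤ (⌊64 * T⌋₊ : ℝ) := by exact_mod_cast h1
      have h4 := Nat.floor_le (show 0 ≤ 64 * T by linarith)
      push_cast at h3
      linarith
    have h5 := Real.log_le_log (by positivity) h2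
    rw [Real.log_pow, Real.log_mul (by norm_num) hTpos.ne'] at h5
    have h6 : Real.log 64 = 6 * Real.log 2 := by
      rw [show (64 : ℝ) = 2 ^ (6 : ℕ) by norm_num, Real.log_pow]; norm_num
    have h7 := Real.log_two_gt_d9
    have h8 := Real.log_two_lt_d9
    rw [h6] at h5
    rw [hL]
    push_cast
    nlinarith [(Nat.cast_nonneg (Nat.log 2 ⌊64 * T⌋₊) : (0 : ℝ) ≤ _)]
  let B : ℕ × ℕ ⊕ ℕ → ArithmeticFunction ℂ := fun i => match i with
    | Sum.inl p => bk δ σ p.1 X Z p.2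
    | Sum.inr j => zb (σ - δ) j
  let e : ℕ × ℕ ⊕ ℕ → ℕ := fun i => match i with
    | Sum.inl p => p.2
    | Sum.inr j => j
  refine ⟨(((Finset.range K) ×ˢ (Finset.range ((q + 1) * K))).disjSum (Finset.range L)).filter
    (fun i => T ^ (η / 2) ≤ ((2 ^ e i : ℕ) : ℝ) ∧ ((2 ^ e i : ℕ) : ℝ) ≤ 64 * T), B, e, ?_, ?_, ?_⟩
  · have h1 := Finset.card_filter_le (((Finset.range K) ×ˢ (Finset.range ((q + 1) * K))).disjSum
      (Finset.range L)) (fun i => T ^ (η / 2) ≤ ((2 ^ e i : ℕ) : ℝ) ∧ ((2 ^ e i : ℕ) : ℝ) ≤ 64 * T)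
    rw [Finset.card_disjSum, Finset.card_product, Finset.card_range, Finset.card_range,
      Finset.card_range] at h1
    have h2 : (((Finset.filter (fun i => T ^ (η / 2) ≤ ((2 ^ e i : ℕ) : ℝ) ∧
        ((2 ^ e i : ℕ) : ℝ) ≤ 64 * T)
        (((Finset.range K) ×ˢ (Finset.range ((q + 1) * K))).disjSum (Finset.range L))).card : ℕ) : ℝ) ≤
        (K : ℝ) * ((q + 1) * K) + L := by exact_mod_cast h1
    refine h2.trans (le_trans ?_ e1)
    have h3 : (K : ℝ) * ((q + 1) * K) ≤ (q + 1) * ((6 * η / δ + 2) * Real.log T) ^ 2 := by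
      calc (K : ℝ) * ((q + 1) * K) = (q + 1) * (K : ℝ) ^ 2 := by ring
        _ ≤ _ := by gcongr
    have h4 : 10 * Real.log T ≤ 10 * Real.log T ^ 2 := by nlinarith
    nlinarith
  · intro i hi
    rw [Finset.mem_filter] at hi
    refine ⟨?_, ?_, hi.2.1, hi.2.2⟩
    · rcases i with p | j
      · exact bk_support
      · exact zb_support
    · rcases i with p | j
      · intro n hn
        refine (bk_norm_le hδ hσ2 n hn).trans ?_
        have hn1 : (1 : ℝ) ≤ n := by exact_mod_cast hn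
        have := Real.rpow_le_rpow_of_exponent_le hn1 (show -σ ≤ -(σ - δ) by linarith)
        gcongr
      · exact zb_norm
  · intro ρ hρ him1 him2 hre1 hre2
    by_cases hb : ∀ z ∈ closedBall (⟨1 + δ, ρ.im⟩ : ℂ) (1 + δ - ρ.re + δ), ‖riemannZeta z‖ ≤ T ^ η
    · -- type I
      obtain ⟨k, hk, hdk⟩ := hdet T hTT1 ρ hρ him1 σ (by linarith) hre1 hre2 hb
      have hdk' : 1 / (2 * (K : ℝ)) ≤ ‖∑ j ∈ Finset.range ((q + 1) * K),
          dp (fun n => bk δ σ k X Z j n) (2 ^ (j + 1)) ρ.im‖ := by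
        rw [← dyadic hZJ]
        exact hdk
      have hex : ∃ j < (q + 1) * K, 1 / (2 * (q + 1) * (K : ℝ) ^ 2) ≤
          ‖dp (fun n => bk δ σ k X Z j n) (2 ^ (j + 1)) ρ.im‖ := by
        by_contra hcon
        push Not at hcon
        have h8 : ‖∑ j ∈ Finset.range ((q + 1) * K),
          dp (fun n => bk δ σ k X Z j n) (2 ^ (j + 1)) ρ.im‖ < 1 / (2 * (K : ℝ)) := by
          calc _ ≤ ∑ j ∈ Finset.range ((q + 1) * K),
                ‖dp (fun n => bk δ σ k X Z j n) (2 ^ (j + 1)) ρ.im‖ := norm_sum_le _ _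
            _ < ∑ j ∈ Finset.range ((q + 1) * K), 1 / (2 * (q + 1) * (K : ℝ) ^ 2) := by
              refine Finset.sum_lt_sum_of_nonempty
                ⟨0, Finset.mem_range.2 (Nat.mul_pos (by omega) (by omega))⟩ fun j hj => ?_
              exact hcon j (Finset.mem_range.1 hj)
            _ = 1 / (2 * (K : ℝ)) := by
              rw [Finset.sum_const, Finset.card_range, nsmul_eq_mul]
              push_cast
              have : (K : ℝ) ≠ 0 := by positivity
              field_simp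
        linarith
      obtain ⟨j, hj, hdj⟩ := hex
      have hlog0 : 0 < Real.log T := by linarith
      have hV : ((Real.log T) ^ 3)⁻¹ ≤ 1 / (2 * (q + 1) * (K : ℝ) ^ 2) := by
        rw [← one_div]
        apply one_div_le_one_div_of_le (by positivity)
        calc 2 * (q + 1) * (K : ℝ) ^ 2 ≤ 2 * (q + 1) * ((6 * η / δ + 2) * Real.log T) ^ 2 := by gcongr
          _ = (2 * (q + 1) * (6 * η / δ + 2) ^ 2) * Real.log T ^ 2 := by ring
          _ ≤ Real.log T * Real.log T ^ 2 := by gcongr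
          _ = _ := by ring
      have hpos : 0 < ((Real.log T) ^ 3)⁻¹ := by positivity
      have hne : ∃ n, bk δ σ k X Z j n ≠ 0 := by
        by_contra hcon
        push Not at hcon
        have h1 := hV.trans hdj
        unfold dp at h1
        simp only [hcon, zero_mul, Finset.sum_const_zero, norm_zero] at h1
        linarith
      obtain ⟨n1, hn1⟩ := hne
      have hn1s := bk_support n1 hn1
      have hn1i : X < n1 ∧ n1 ≤ Z := by
        rw [bk_apply] at hn1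
        by_contra hcon
        apply hn1
        rw [if_neg]
        rw [Finset.mem_Ioc]
        tauto
      refine ⟨Sum.inl (k, j), ?_, (ρ.im : ℂ) * I, ?_, ?_, ?_, ?_⟩
      · rw [Finset.mem_filter]
        refine ⟨?_, ?_, ?_⟩
        · rw [Finset.inl_mem_disjSum, Finset.mem_product, Finset.mem_range, Finset.mem_range]
          exact ⟨hk, hj⟩
        · have h1 : T ^ η < X + 1 := Nat.lt_floor_add_one _
          have h2 : (X : ℝ) + 1 ≤ 2 * ((2 ^ j : ℕ) : ℝ) := by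
            have : X + 1 ≤ 2 * 2 ^ j := by
              have := hn1s.2
              rw [pow_succ] at this
              omega
            exact_mod_cast this
          have h3 : T ^ η = T ^ (η / 2) * T ^ (η / 2) := by
            rw [← Real.rpow_add hTpos]; congr 1; ring
          have h4 : 2 * T ^ (η / 2) ≤ T ^ (η / 2) * T ^ (η / 2) := by gcongr
          show T ^ (η / 2) ≤ ((2 ^ j : ℕ) : ℝ)
          linarith
        · show ((2 ^ j : ℕ) : ℝ) ≤ 64 * T
          have h1 : ((2 ^ j : ℕ) : ℝ) ≤ (Z : ℝ) := by exact_mod_cast hn1s.1.trans hn1i.2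
          have h2 : T ^ κ ≤ T := by
            calc T ^ κ ≤ T ^ (1 : ℝ) := Real.rpow_le_rpow_of_exponent_le e7 hκ1
              _ = T := Real.rpow_one T
          linarith
      · simp
      · simp
      · simp
      · refine (hV.trans hdj).trans (le_of_eq ?_)
        rw [dp_eq_LSeries (fun n hn => (bk_support n hn).2)]
    · -- type II
      push Not at hb
      obtain ⟨z, hz, hzb⟩ := hb
      rw [mem_closedBall, dist_eq_norm] at hz
      have hzr := (Complex.abs_re_le_norm _).trans hz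
      have hzi := (Complex.abs_im_le_norm _).trans hz
      rw [Complex.sub_re] at hzr
      rw [Complex.sub_im] at hzi
      simp only at hzr hzi
      rw [abs_le] at hzr hzi
      have g1 : σ - δ ≤ z.re := by linarith
      have g2 : z.re ≤ 2 := by linarith
      have g3 : |z.im - ρ.im| ≤ 1 := by rw [abs_le]; constructor <;> linarith
      have g3' := abs_le.1 g3
      obtain ⟨t, ht⟩ : ∃ t : ℝ, t = z.im := ⟨_, rfl⟩
      have ht2 : 2 ≤ t := by rw [ht]; linarith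
      have ht3 : t ≤ 3 * T := by
        rw [ht]
        have : 1 ≤ T := e7
        linarith
      set M : ℕ := Nat.log 2 ⌊16 * t⌋₊ with hM
      have hfl2 : ⌊16 * t⌋₊ ≠ 0 := by
        have : 0 < ⌊16 * t⌋₊ := Nat.floor_pos.2 (by linarith)
        omega
      have hM1 : ((2 ^ M : ℕ) : ℝ) ≤ 16 * t := by
        have h1 := Nat.pow_log_le_self 2 hfl2
        have h3 : (((2 ^ M : ℕ)) : ℝ) ≤ (⌊16 * t⌋₊ : ℝ) := by exact_mod_cast h1
        exact h3.trans (Nat.floor_le (by linarith))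
      have hM2 : 8 * t < ((2 ^ M : ℕ) : ℝ) := by
        have h1 := Nat.lt_pow_succ_log_self (show 1 < 2 by norm_num) ⌊16 * t⌋₊
        rw [← hM, Nat.floor_lt (by linarith)] at h1
        rw [pow_succ] at h1
        push_cast at h1 ⊢
        linarith
      have hcast : (((2 ^ M - 1 : ℕ)) : ℝ) = ((2 ^ M : ℕ) : ℝ) - 1 := by
        rw [Nat.cast_sub Nat.one_le_two_pow]; simp
      have hzp := zeta_partial (s := z) (X := 2 ^ M - 1) (by linarith) g2 (by rw [← ht]; linarith)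
        (by rw [hcast, ← ht]; linarith) (by rw [hcast, ← ht]; linarith)
      rw [zN_blocks (σ - δ)] at hzp
      have hex : ∃ j < M, T ^ (η / 2) ≤ ‖LSeries (fun n => zb (σ - δ) j n) (z - ((σ - δ : ℝ) : ℂ))‖ := by
        by_contra hcon
        push Not at hcon
        have h1 : ‖∑ j ∈ Finset.range M, LSeries (fun n => zb (σ - δ) j n) (z - ((σ - δ : ℝ) : ℂ))‖ ≤
            M * T ^ (η / 2) := by
          refine (norm_sum_le_of_le _ (fun j hj => (hcon j (Finset.mem_range.1 hj)).le)).trans ?_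
          rw [Finset.sum_const, Finset.card_range, nsmul_eq_mul]
        have h2 : ‖riemannZeta z‖ ≤ 4000 + M * T ^ (η / 2) := by
          have := norm_sub_norm_le (riemannZeta z)
            (∑ j ∈ Finset.range M, LSeries (fun n => zb (σ - δ) j n) (z - ((σ - δ : ℝ) : ℂ)))
          linarith
        have hML : (M : ℝ) ≤ 10 * Real.log T := by
          refine le_trans ?_ hLle
          have : M ≤ L := by
            rw [hL, hM]
            have : ⌊16 * t⌋₊ ≤ ⌊64 * T⌋₊ := Nat.floor_le_floor (by linarith)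
            exact (Nat.log_mono_right this).trans (by omega)
          exact_mod_cast this
        have h3 : T ^ η = T ^ (η / 2) * T ^ (η / 2) := by
          rw [← Real.rpow_add hTpos]; congr 1; ring
        have h4 : 1 ≤ T ^ (η / 2) := by linarith
        rw [pow_one] at e5
        have h5 : (4001 + 10 * Real.log T) * T ^ (η / 2) ≤ T ^ (η / 2) * T ^ (η / 2) := by
          have : 4001 + 10 * Real.log T ≤ T ^ (η / 2) := by nlinarith
          gcongr
        have h6 : (M : ℝ) * T ^ (η / 2) ≤ 10 * Real.log T * T ^ (η / 2) := by gcongr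
        nlinarith
      obtain ⟨j, hj, hjb⟩ := hex
      have hjM : ((2 ^ j : ℕ) : ℝ) ≤ ((2 ^ M : ℕ) : ℝ) := by
        exact_mod_cast Nat.pow_le_pow_right (by norm_num) hj.le
      have hj64 : ((2 ^ j : ℕ) : ℝ) ≤ 64 * T := by linarith
      have hsre : 0 ≤ (z - ((σ - δ : ℝ) : ℂ)).re := by
        rw [Complex.sub_re, Complex.ofReal_re]; linarith
      refine ⟨Sum.inr j, ?_, z - ((σ - δ : ℝ) : ℂ), hsre, ?_, ?_, ?_⟩
      · rw [Finset.mem_filter]
        refine ⟨?_, ?_, hj64⟩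
        · rw [Finset.inr_mem_disjSum, Finset.mem_range, hL]
          have : 2 ^ j ≤ ⌊64 * T⌋₊ := Nat.le_floor hj64
          have := Nat.le_log_of_pow_le (by norm_num) this
          omega
        · show T ^ (η / 2) ≤ ((2 ^ j : ℕ) : ℝ)
          exact hjb.trans (zb_size (by linarith) j hsre)
      · rw [Complex.sub_re, Complex.ofReal_re]; linarith
      · rw [Complex.sub_im, Complex.ofReal_im, sub_zero]; exact g3
      · refine le_trans ?_ hjb
        have h1 : ((Real.log T) ^ 3)⁻¹ ≤ 1 := by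
          apply inv_le_one_of_one_le₀
          exact one_le_pow₀ (by linarith)
        linarith

end Pool.Agent.X108.ZE
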